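import Mathlib
import Pool.Agent.helper17.WormStep

set_option autoImplicit false

/-!
Moser's worm problem without convexity: attainment of the infimum and uniform thickness

Math page: team-store C6_MP_f477b1_helper60.md (complete proof). Every row below is a `def XX_stmt : Prop` with
its complete proof in the docstring; a row file proves `theorem XX (hYY : YY_stmt) ... : XX_stmt`.

From `Pool.Agent.helper17.WormGeom`, `WormStep`, `WormPath` we use: `rc` (half open rectangle), `mem_rc`,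
`volume_rc`, `volume_real_rc`, `measurableSet_rc`, `mv` (rigid motion), `mp_mv`, `dist_mv`, `mv_near`,
`occ` (occupied area), `occ_union`, `occ_rc_width`, `occ_rc_height`, `occ_near`, `occ_periodic`, `muG`
(measure on motions), `lintegral_muG`, `measurable_occ`, `regular`, `lipschitz_of_ordered`.
-/

namespace Pool.Agent.MW

open MeasureTheory Set Pool.Agent.helper17.Worm

/-! Definitions, block A (one set) -/

/-- half open square with lower left corner `p` and side `a` -/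
def sq (p : ℂ) (a : ℝ) : Set ℂ := rc p.re a p.im a

/-- corner of the subcell number `(i, j)` of side `b` -/
noncomputable def sub (p : ℂ) (b : ℝ) (i j : ℕ) : ℂ :=
  p + ((i * b : ℝ) : ℂ) + ((j * b : ℝ) : ℂ) * Complex.I

/-- `A` is covered by a path of length `ℓ` -/
def Cv (ℓ : ℝ) (A : Set ℂ) : Prop := 0 ≤ ℓ ∧ ∃ f : ℝ → ℂ, LipschitzWith 1 f ∧ A ⊆ f '' Icc 0 ℓ

/-- `X` contains a rigid copy of every `1`-Lipschitz path parametrised by `[0, 1]` -/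
def CovX (X : Set ℂ) : Prop :=
  ∀ f : ℝ → ℂ, LipschitzWith 1 f → ∃ g : ℝ × ℂ, ∀ t ∈ Icc (0 : ℝ) 1, mv g (f t) ∈ X

open Classical in
/-- number of the nodes `p i` whose cell of side `a` is filled up to the proportion `s` at most -/
noncomputable def nbad {ι : Type} [Fintype ι] (X : Set ℂ) (g : ℝ × ℂ) (p : ι → ℂ) (a s : ℝ) : ℕ :=
  (Finset.univ.filter (fun i => occ X g (sq (p i) a) ≤ s * a ^ 2)).card

open Classical in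
/-- the same for a finite set of nodes -/
noncomputable def nb (X : Set ℂ) (g : ℝ × ℂ) (N : Finset ℂ) (a s : ℝ) : ℕ :=
  (N.filter (fun n => occ X g (sq n a) ≤ s * a ^ 2)).card

/-- all chosen subcells are filled more than the proportion `t` -/
def Full {ι : Type} {k q : ℕ} (X : Set ℂ) (g : ℝ × ℂ) (p : ι → ℂ) (b t : ℝ)
    (S : ι × Fin k → Fin q × Fin q) : Prop :=
  ∀ e, t * b ^ 2 < occ X g (sq (sub (p e.1) b (S e).1 (S e).2) b)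

open Classical in
/-- number of the choices of subcells which are all filled more than the proportion `t` -/
noncomputable def nfull {ι : Type} [Fintype ι] (X : Set ℂ) (g : ℝ × ℂ) (p : ι → ℂ) (b t : ℝ)
    (k q : ℕ) : ℕ :=
  (Finset.univ.filter (fun S : ι × Fin k → Fin q × Fin q => Full X g p b t S)).card

/-- the motions for which the choice `S` of subcells is useless -/
def Fail {ι : Type} [Fintype ι] {k q : ℕ} (X : Set ℂ) (p : ι → ℂ) (a b s t : ℝ) (B : ℕ)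
    (S : ι × Fin k → Fin q × Fin q) : Set (ℝ × ℂ) :=
  {g | B ≤ nbad X g p a s ∧ Full X g p b t S}

/-! Rows, block A -/

/-- INS. Insertion of a point by a detour.
Proof: let `p = f t₀`, `0 ≤ t₀ ≤ ℓ`, `d = ‖q - p‖` (if `d = 0` trivial, `q = p`), `u = (q - p) / d`. Put
`φ t = min t t₀ + max 0 (t - t₀ - 2 d)` and `τ t = max 0 (d - |t - t₀ - d|)`, `h t = f (φ t) + τ t * u`.
For `s ≤ t` one has `(φ t - φ s) + |τ t - τ s| ≤ t - s` (`φ` is constant where `τ` moves), so `h` is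
`1`-Lipschitz (`lipschitz_of_ordered`). `h t = f t` for `t ≤ t₀`, `h (t + 2 d) = f t` for `t ≥ t₀`,
`h (t₀ + d) = q`. -/
def INS_stmt : Prop := ∀ (ℓ : ℝ) (A : Set ℂ) (p q : ℂ), Cv ℓ A → p ∈ A →
  Cv (ℓ + 2 * ‖q - p‖) (insert q A)

/-- INF. Insertion of finitely many points. Induction over a `Finset` of indices with INS (the points
`p i` remain in the growing set). -/
def INF_stmt : Prop := ∀ (ι : Type) [Fintype ι] (ℓ : ℝ) (A : Set ℂ) (p q : ι → ℂ), Cv ℓ A →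
  (∀ i, p i ∈ A) → Cv (ℓ + 2 * ∑ i, ‖q i - p i‖) (A ∪ range q)

/-- REG. Regularity, from `Pool.Agent.helper17.Worm.regular` (write `a = exp (I * arg a)` for `‖a‖ = 1`,
and conversely `mv g z = exp (I * g.1) * z + g.2`). -/
def REG_stmt : Prop := ∀ X : Set ℂ, IsOpen X → CovX X → ∃ ρ > 0, ∀ A : Set ℂ, Cv 1 A →
  ∃ g : ℝ × ℂ, ∀ z ∈ A, Metric.ball (mv g z) ρ ⊆ X

/-- SPL. Decomposition of a cell into subcells: `occ_rc_width` and `occ_rc_height`. -/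
def SPL_stmt : Prop := ∀ X : Set ℂ, MeasurableSet X → volume X ≠ ⊤ → ∀ (g : ℝ × ℂ) (p : ℂ) (b : ℝ)
  (q : ℕ), 0 ≤ b → occ X g (sq p (q * b)) =
    ∑ i ∈ Finset.range q, ∑ j ∈ Finset.range q, occ X g (sq (sub p b i j) b)

/-- CNT. Counting for one motion.
Proof: the choices are a product: `nfull = ∏_{(i,c)} n_i`, `n_i` = number of `(x, y) : Fin q × Fin q` with
`t b^2 < occ (subcell)`. By SPL and Markov `n_i ≤ q^2 * (D_i / t)`, `D_i = occ X g (sq (p i) a) / a^2`, and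
`n_i ≤ q^2` always. For the bad nodes (`D_i ≤ s`) each factor is `≤ q^2 (s / t)`, `s / t ≤ 1`; there are at least
`B * k` factors `(i, c)` with `i` bad; for one of them keep `D_i / t ≤ (∑ D) / t`, estimate `B k - 1` others by
`s / t`, the rest by `q^2`. -/
def CNT_stmt : Prop := ∀ (ι : Type) [Fintype ι] (X : Set ℂ), MeasurableSet X → volume X ≠ ⊤ →
  ∀ (g : ℝ × ℂ) (k q B : ℕ) (p : ι → ℂ) (a b s t : ℝ), 1 ≤ k → 1 ≤ q → 1 ≤ B → 0 < b → a = q * b →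
  0 ≤ s → 0 < t → s ≤ t → B ≤ nbad X g p a s →
  (nfull X g p b t k q : ℝ) ≤ (q : ℝ) ^ (2 * (Fintype.card ι * k)) *
    ((s / t) ^ (B * k - 1) * (1 / t) * ((∑ i, occ X g (sq (p i) a)) / a ^ 2))

/-- MFL. `Fail` is measurable: finitely many conditions on the measurable functions
`g ↦ occ X g A = (volume (A ∩ mv g ⁻¹' X)).toReal` (`measurable_occ`); the condition `B ≤ nbad` is a finite
union over the subsets of indices of card `≥ B`. -/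
def MFL_stmt : Prop := ∀ (ι : Type) [Fintype ι] (X : Set ℂ), MeasurableSet X → ∀ (k q B : ℕ) (p : ι → ℂ)
  (a b s t : ℝ) (S : ι × Fin k → Fin q × Fin q), MeasurableSet (Fail X p a b s t B S)

open Classical in
/-- SUM. Sum over all choices of the measure of `Fail`. As `sum_bad` in `WormStep`:
`∑_S muG (Fail S) = ∫ card {S : g ∈ Fail S} ≤ ∫ q^(2 card k) (s/t)^(Bk-1) (1/t) (∑_i occ (sq (p i) a)) / a^2`
(by CNT, where the integrand vanishes if `nbad < B`), and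
`∫ occ (sq (p i) a) = (β - α) * a^2 * volume X` (`lintegral_muG`). -/
def SUM_stmt : Prop := ∀ (ι : Type) [Fintype ι] (X : Set ℂ), MeasurableSet X → volume X ≤ 1 →
  ∀ (k q B : ℕ) (p : ι → ℂ) (a b s t α β : ℝ), 1 ≤ k → 1 ≤ q → 1 ≤ B → 0 < b → a = q * b →
  0 ≤ s → 0 < t → s ≤ t → α ≤ β →
  ∑ S : ι × Fin k → Fin q × Fin q, muG α β (Fail X p a b s t B S) ≤
    ENNReal.ofReal ((q : ℝ) ^ (2 * (Fintype.card ι * k)) *
      ((β - α) * ((s / t) ^ (B * k - 1) * (1 / t) * Fintype.card ι)))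

/-- CHO. Choice: by SUM, if all `S` had `v ≤ muG (Fail S)` then the sum would be at least
`q^(2 card k) * v` (number of the choices). -/
def CHO_stmt : Prop := ∀ (ι : Type) [Fintype ι] (X : Set ℂ), MeasurableSet X → volume X ≤ 1 →
  ∀ (k q B : ℕ) (p : ι → ℂ) (a b s t α β v : ℝ), 1 ≤ k → 1 ≤ q → 1 ≤ B → 0 < b → a = q * b →
  0 ≤ s → 0 < t → s ≤ t → α ≤ β → 0 < v →
  (β - α) * ((s / t) ^ (B * k - 1) * (1 / t) * Fintype.card ι) < v →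
  ∃ S : ι × Fin k → Fin q × Fin q, muG α β (Fail X p a b s t B S) < ENNReal.ofReal v

/-- BAL. Small changes of the motion. For `z` in a cell `‖z‖ ≤ 4`, so `mv_near` gives
`‖mv g z - mv g' z‖ ≤ d`; `occ_near` (twice, also with `g, g'` exchanged) changes `occ` by at most `4 d b` on the
subcells and `4 d a` on the cells. -/
def BAL_stmt : Prop := ∀ (ι : Type) [Fintype ι] (X : Set ℂ), MeasurableSet X →
  ∀ (k q B : ℕ) (p : ι → ℂ) (a b s t d : ℝ) (S : ι × Fin k → Fin q × Fin q) (g g' : ℝ × ℂ),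
  0 < d → 2 * d ≤ b → 1 ≤ q → a = q * b → a ≤ 1 / 2 → (∀ i, ‖p i‖ ≤ 3) → B ≤ nbad X g p a s →
  Full X g p b (t + 4 * d / b) S → |g.1 - g'.1| ≤ d / 8 → ‖g.2 - g'.2‖ ≤ d / 2 →
  g' ∈ Fail X p a b (s + 4 * d / a) t B S

/-- MEA. Measure of a small ball of motions: product of an interval of length `d / 4` inside
`[-d/8, 2π + d/8]` and a disc of radius `d / 2` (`Complex.volume_closedBall`). -/
def MEA_stmt : Prop := ∀ (d θ : ℝ) (v : ℂ), 0 < d → 0 ≤ θ → θ ≤ 2 * Real.pi →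
  ENNReal.ofReal (Real.pi * d ^ 3 / 16) ≤ muG (-(d / 8)) (2 * Real.pi + d / 8)
    {g' : ℝ × ℂ | |θ - g'.1| ≤ d / 8 ∧ ‖v - g'.2‖ ≤ d / 2}

/-- NUM. Numerics. With `d = h b / 4 ≤ 1/64`, `r = (s + h) / (s + 2 h)`: `1/2 ≤ r ≤ 1 - h ≤ exp (-h)` (as
`s + 2 h ≤ 1`), so the left side is `≤ 6.29 * 2 * 2 * m * exp (-(h n)) ≤ 25.2 (h b)^3 / 10^4 < π (h b)^3 / 1024`. -/
def NUM_stmt : Prop := ∀ (m n : ℕ) (b s h : ℝ), 1 ≤ n → 0 < b → b ≤ 1 / 2 → 1 / 2 ≤ s → 0 < h →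
  s + 4 * h ≤ 1 → 10 ^ 4 * m * Real.exp (-(h * n)) ≤ (h * b) ^ 3 →
  (2 * Real.pi + h * b / 4 / 8 - -(h * b / 4 / 8)) *
    (((s + h) / (s + 2 * h)) ^ (n - 1) * (1 / (s + 2 * h)) * m) < Real.pi * (h * b / 4) ^ 3 / 16

/-- STP. **The step.** Proof: CHO with `s + h, t = s + 2 h`, `d = h b / 4` (so `4 d / b = h`, `4 d / a ≤ h`),
`α = - d/8`, `β = 2π + d/8`, `v = π d^3 / 16` (numerics NUM with `n = B k`) gives `S`; put
`p' e = sub (p e.1) b (S e).1 (S e).2`, at distance `≤ √2 a ≤ 3/2 a`. If some `g ∈ G` had all subcells filled more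
than `s + 4 h ≥ t + h`, normalise the angle to `[0, 2π]` (`occ_periodic`; `nbad` and `Full` do not change) and by BAL
(and monotonicity of `Fail` in `s`) the whole small ball of MEA would lie in `Fail`, contradiction. -/
def STP_stmt : Prop := ∀ (ι : Type) [Fintype ι] (X : Set ℂ), MeasurableSet X → volume X ≤ 1 →
  ∀ (k q B : ℕ) (p : ι → ℂ) (a b s h : ℝ) (G : Set (ℝ × ℂ)), 1 ≤ k → 1 ≤ q → 1 ≤ B → 0 < b →
  a = q * b → a ≤ 1 / 2 → (∀ i, ‖p i‖ ≤ 3) → 1 / 2 ≤ s → 0 < h → s + 4 * h ≤ 1 →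
  10 ^ 4 * Fintype.card ι * Real.exp (-(h * (B * k : ℕ))) ≤ (h * b) ^ 3 →
  (∀ g ∈ G, B ≤ nbad X g p a s) →
  ∃ p' : ι × Fin k → ℂ, (∀ e, ‖p' e - p e.1‖ ≤ 3 / 2 * a) ∧
    ∀ g ∈ G, ∃ e, occ X g (sq (p' e) b) ≤ (s + 4 * h) * b ^ 2

/-! The chain -/

/-- number of children at level `i` -/
def kk (P i : ℕ) : ℕ := if i = 0 then 1 else P * 8 ^ i

/-- number of nodes at level `i` -/
def mm (P m i : ℕ) : ℕ := m * ∏ l ∈ Finset.range i, kk P l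

/-- side at level `i` -/
noncomputable def aa (P : ℕ) (a : ℝ) (i : ℕ) : ℝ := a / ∏ l ∈ Finset.range i, (2 * (kk P (l + 1) : ℝ))

/-- step of the thresholds -/
noncomputable def hh (κ : ℝ) (i : ℕ) : ℝ := κ / 2 ^ (i + 4)

/-- thresholds -/
noncomputable def ss (κ : ℝ) (i : ℕ) : ℝ := 1 - κ / 2 - κ / 2 ^ (i + 1)

/-- the size of `K` -/
noncomputable def KF (κ a : ℝ) (m : ℕ) : ℝ :=
  64 / κ * (Real.log m + 3 * Real.log (1 / a) + 5 * Real.log (1 / κ) + 40)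

/-- PAR. Parameters. `Λ = log m + 3 log (1/a) + 5 log (1/κ) + 40`, `P = ⌈32 Λ / κ⌉ ≤ 33 Λ / κ`,
`log P ≤ 3.5 + log Λ + log (1/κ) ≤ 0.4 Λ` (as `Λ ≥ 40 + 5 log (1/κ)`, `log Λ ≤ Λ / 10`).
Level `0`: taking logarithms one needs `κ K / 16 ≥ log 10^4 + log m + 3 log (16/κ) + 3 log (16 P / a)`; the left side is
`≥ 4 Λ`, the right side is `≤ 26 + log m + 3 log (1/κ) + 3 log (1/a) + 3 log P ≤ Λ + 1.2 Λ`.
Level `i ≥ 1`: `κ P 4^i / 16 ≥ 2 Λ 4^i` against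
`log 10^4 + [log m + (i-1) log P + i(i-1)/2 log 8] + 3 log (2^(i+4)/κ) + 3 [log (1/a) + (i+1) log (2P) + (i+1)(i+2)/2 log 8]`
`≤ 17.6 + log m + 3 log (1/κ) + 3 log (1/a) + 2.1 i + (4 i + 2) (0.7 + log P) + 1.05 i (i-1) + 3.15 (i+1)(i+2)`; use
`log P ≤ 0.4 Λ`, `Λ ≥ 40` and `4 i + 2, i^2, ... ≤ const * 4^i` (for `i = 1`: `≤ 8 Λ`). -/
def PAR_stmt : Prop := ∀ (κ a : ℝ) (m K : ℕ), 0 < κ → κ ≤ 1 / 2 → 0 < a → a ≤ 1 / 8 → 1 ≤ m →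
  KF κ a m ≤ K → ∃ P : ℕ, 1 ≤ P ∧
    10 ^ 4 * m * Real.exp (-(hh κ 0 * K)) ≤ (hh κ 0 * aa P a 1) ^ 3 ∧
    ∀ i : ℕ, 1 ≤ i → 10 ^ 4 * mm P m i * Real.exp (-(hh κ i * kk P i)) ≤ (hh κ i * aa P a (i + 1)) ^ 3

/-- SEQ. Easy facts on the sequences: recursions, positivity, `a_i ≤ a / 2^i`, the sum of
`m_i k_i a_i` is at most `2 m a` (each term is half of the previous one), the sum of `a_i` is at most `2 a`,
and `s_{i+1} = s_i + 4 h_i`, `s_i ≤ 1 - κ/2`, `1/2 ≤ s_i`. -/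
def SEQ_stmt : Prop := ∀ (κ a : ℝ) (P m : ℕ), 0 < κ → κ ≤ 1 / 2 → 0 < a → 1 ≤ P →
  (aa P a 0 = a ∧ mm P m 0 = m) ∧ (∀ i, aa P a i = ((2 * kk P (i + 1) : ℕ) : ℝ) * aa P a (i + 1)) ∧
  (∀ i, mm P m (i + 1) = mm P m i * kk P i) ∧ (∀ i, 1 ≤ kk P i) ∧ (∀ i, 0 < aa P a i) ∧
  (∀ i, aa P a i ≤ a / 2 ^ i) ∧
  (∀ n, ∑ i ∈ Finset.range n, (mm P m i : ℝ) * kk P i * aa P a i ≤ 2 * m * a) ∧
  (∀ n, ∑ i ∈ Finset.range n, aa P a i ≤ 2 * a) ∧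
  (∀ i, ss κ (i + 1) = ss κ i + 4 * hh κ i) ∧ (∀ i, ss κ i + 4 * hh κ i ≤ 1) ∧
  (∀ i, 1 / 2 ≤ ss κ i ∧ ss κ i ≤ 1 - κ / 2) ∧ (∀ i, 0 < hh κ i) ∧ ss κ 0 = 1 - κ

/-- the state of the chain at level `i` -/
def Lev {ι : Type} (X : Set ℂ) (G : Set (ℝ × ℂ)) (κ a : ℝ) (P m : ℕ) (p : ι → ℂ) (i : ℕ) : Prop :=
  ∃ (ι' : Type) (_ : Fintype ι') (p' : ι' → ℂ) (N : Finset ℂ), Fintype.card ι' = mm P m i ∧
    (∀ l, p' l ∈ N) ∧ (∀ l, ‖p' l‖ ≤ 2 + 3 / 2 * ∑ j ∈ Finset.range i, aa P a j) ∧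
    (∀ (ℓ : ℝ) (A : Set ℂ), Cv ℓ A → (∀ l, p l ∈ A) →
      Cv (ℓ + 3 * ∑ j ∈ Finset.range i, (mm P m j : ℝ) * kk P j * aa P a j) (A ∪ N)) ∧
    ∀ g ∈ G, ∃ l, occ X g (sq (p' l) (aa P a i)) ≤ ss κ i * (aa P a i) ^ 2

/-- LV1. From level `0` to level `1`: STP with `k = 1`, `q = 2 * kk P 1`, `B = K`, `b = aa P a 1`, `s = ss κ 0`,
`h = hh κ 0`; `N` = the image of `p'`; cost: INF (each child costs `2 * 3/2 * a`). -/
def LV1_stmt : Prop := ∀ (ι : Type) [Fintype ι] (X : Set ℂ), MeasurableSet X → volume X ≤ 1 →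
  ∀ (κ a : ℝ) (P K : ℕ) (p : ι → ℂ) (G : Set (ℝ × ℂ)), 0 < κ → κ ≤ 1 / 2 → 0 < a → a ≤ 1 / 8 →
  1 ≤ P → 1 ≤ K → (∀ i, ‖p i‖ ≤ 2) →
  10 ^ 4 * (Fintype.card ι : ℝ) * Real.exp (-(hh κ 0 * K)) ≤ (hh κ 0 * aa P a 1) ^ 3 →
  (∀ g ∈ G, K ≤ nbad X g p a (1 - κ)) → Lev X G κ a P (Fintype.card ι) p 1

/-- LVS. From level `i ≥ 1` to level `i + 1`: STP with `B = 1`, `k = kk P i`, `q = 2 * kk P (i+1)` (one bad node
means `1 ≤ nbad`); the new `N` is the old one and the image of the new nodes; cost: apply the old cost statement to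
`A`, then INF to `A ∪ N`. Norms stay `≤ 2 + 3/2 * 2 a ≤ 3`. -/
def LVS_stmt : Prop := ∀ (ι : Type) [Fintype ι] (X : Set ℂ), MeasurableSet X → volume X ≤ 1 →
  ∀ (κ a : ℝ) (P m : ℕ) (p : ι → ℂ) (G : Set (ℝ × ℂ)) (i : ℕ), 0 < κ → κ ≤ 1 / 2 → 0 < a →
  a ≤ 1 / 8 → 1 ≤ P → 1 ≤ i →
  10 ^ 4 * mm P m i * Real.exp (-(hh κ i * kk P i)) ≤ (hh κ i * aa P a (i + 1)) ^ 3 →
  Lev X G κ a P m p i → Lev X G κ a P m p (i + 1)

/-- CHN. **The chain.** PAR, LV1, induction with LVS, up to a level `i` with `a / 2^i ≤ ρ`; the total cost is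
`≤ 3 * 2 m a` (SEQ, and monotonicity of `Cv` in `ℓ`). -/
def CHN_stmt : Prop := ∀ (ι : Type) [Fintype ι] (X : Set ℂ), MeasurableSet X → volume X ≤ 1 →
  ∀ (κ a : ℝ) (K : ℕ) (p : ι → ℂ) (G : Set (ℝ × ℂ)), 0 < κ → κ ≤ 1 / 2 → 0 < a → a ≤ 1 / 8 →
  1 ≤ Fintype.card ι → (∀ i, ‖p i‖ ≤ 2) → KF κ a (Fintype.card ι) ≤ K →
  (∀ g ∈ G, K ≤ nbad X g p a (1 - κ)) → ∀ ρ > 0, ∃ (N : Finset ℂ) (a' : ℝ), 0 < a' ∧ a' ≤ ρ ∧
    (∀ (ℓ : ℝ) (A : Set ℂ), Cv ℓ A → (∀ i, p i ∈ A) → Cv (ℓ + 6 * Fintype.card ι * a) (A ∪ N)) ∧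
    ∀ g ∈ G, ∃ n ∈ N, occ X g (sq n a') ≤ (1 - κ / 2) * a' ^ 2

/-- LMA. **Many scales at once.** By contradiction: `G j = {g | K j ≤ nb X g (N j) (a j) (1 - κ j)}`, `j ∈ J`, cover
all motions. REG gives `ρ`; CHN for every `j ∈ J` (index type `N j`, `nbad` of the inclusion is `nb`) with `ρ / 2` gives
`N' j`, `a' j`; `Γ` and all `N' j` together satisfy `Cv 1` (finite induction over `J`). The motion `g` of REG lies in some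
`G j`; the cell of `n ∈ N' j` is mapped into `ball (mv g n) ρ ⊆ X`, so its `occ` is `a'^2`, contradiction. -/
def LMA_stmt : Prop := ∀ X : Set ℂ, IsOpen X → CovX X → volume X ≤ 1 → ∀ (ℓ : ℝ) (Γ : Set ℂ),
  Cv ℓ Γ → ∀ (J : Finset ℕ) (N : ℕ → Finset ℂ) (κ a : ℕ → ℝ) (K : ℕ → ℕ),
  (∀ j ∈ J, 0 < κ j ∧ κ j ≤ 1 / 2 ∧ 0 < a j ∧ a j ≤ 1 / 8 ∧ (N j).Nonempty ∧
    (∀ n ∈ N j, n ∈ Γ ∧ ‖n‖ ≤ 2) ∧ KF (κ j) (a j) (N j).card ≤ K j) →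
  ℓ + ∑ j ∈ J, 6 * ((N j).card : ℝ) * a j ≤ 1 →
  ∃ g : ℝ × ℂ, ∀ j ∈ J, nb X g (N j) (a j) (1 - κ j) < K j

/-! Nodes on a curve -/

/-- CIR. Points at all distances (intermediate value theorem for `t ↦ ‖F t - z‖` on `[0, ℓ]`). -/
def CIR_stmt : Prop := ∀ (F : ℝ → ℂ) (ℓ R r : ℝ) (z y : ℂ), LipschitzWith 1 F → z ∈ F '' Icc 0 ℓ →
  y ∈ F '' Icc 0 ℓ → R ≤ ‖y - z‖ → 0 ≤ r → r ≤ R → ∃ x ∈ F '' Icc 0 ℓ, ‖x - z‖ = r

/-- MAX. A maximal separated set: a separated finite subset has at most `1 / a' + 1` elements (the times are `a'`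
separated in `[0, ℓ]`, `ℓ ≤ 1`: sort them, or use the injection `t ↦ ⌊t / a'⌋`), so there is one of
maximal cardinality. -/
def MAX_stmt : Prop := ∀ (F : ℝ → ℂ) (ℓ a' : ℝ), LipschitzWith 1 F → 0 ≤ ℓ → ℓ ≤ 1 → 0 < a' →
  ∃ N : Finset ℂ, N.Nonempty ∧ (∀ n ∈ N, n ∈ F '' Icc 0 ℓ) ∧
    (∀ n ∈ N, ∀ n' ∈ N, n ≠ n' → a' ≤ ‖n - n'‖) ∧ (N.card : ℝ) ≤ 1 / a' + 1 ∧
    ∀ x ∈ F '' Icc 0 ℓ, ∃ n ∈ N, ‖n - x‖ < a'

/-- NOD. Nodes: for `r = 1, ..., 2K` take `x_r` with `‖x_r - z‖ = 3 a' r` (CIR, `6 K a' ≤ R`) and a node `n_r` with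
`‖n_r - x_r‖ < a'` (MAX); `‖n_r - z‖` lies in `(3 a' r - a', 3 a' r + a')`, so the `n_r` are distinct and within
`7 K a'`. -/
def NOD_stmt : Prop := ∀ (F : ℝ → ℂ) (ℓ R a' : ℝ) (K : ℕ), LipschitzWith 1 F → 0 ≤ ℓ → ℓ ≤ 1 →
  0 < a' → 1 ≤ K → 7 * K * a' ≤ R →
  (∀ z ∈ F '' Icc 0 ℓ, ∃ y ∈ F '' Icc 0 ℓ, R ≤ ‖y - z‖) →
  ∃ N : Finset ℂ, N.Nonempty ∧ (∀ n ∈ N, n ∈ F '' Icc 0 ℓ) ∧
    (∀ n ∈ N, ∀ n' ∈ N, n ≠ n' → a' ≤ ‖n - n'‖) ∧ (N.card : ℝ) ≤ 1 / a' + 1 ∧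
    ∀ z ∈ F '' Icc 0 ℓ, ∃ T ⊆ N, 2 * K ≤ T.card ∧ ∀ n ∈ T, ‖n - z‖ ≤ 7 * K * a'

/-- EXT. Extension of a curve. `F t = f (t / c) - f 0` for `0 ≤ t ≤ c` (with `t / c` clamped to `[0, 1]`), followed
by the segment from `f 1 - f 0` in the direction `1` with length `(1 - c) / 2`; the two ends of the segment
have distance `(1 - c) / 2`, so one of them is at distance `≥ (1 - c) / 4` from `z`. -/
def EXT_stmt : Prop := ∀ (c : ℝ) (f : ℝ → ℂ), 0 < c → c < 1 →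
  (∀ x ∈ Icc (0 : ℝ) 1, ∀ y ∈ Icc (0 : ℝ) 1, ‖f x - f y‖ ≤ c * |x - y|) →
  ∃ F : ℝ → ℂ, LipschitzWith 1 F ∧ F 0 = 0 ∧
    (∀ x ∈ Icc (0 : ℝ) 1, f x - f 0 ∈ F '' Icc 0 ((1 + c) / 2)) ∧
    ∀ z ∈ F '' Icc 0 ((1 + c) / 2), ∃ y ∈ F '' Icc 0 ((1 + c) / 2), (1 - c) / 4 ≤ ‖y - z‖

/-! Lattice squares -/

/-- dyadic lattice square -/
noncomputable def lsq (L : ℕ) (x y : ℤ) : Set ℂ := rc (x / 2 ^ L) (1 / 2 ^ L) (y / 2 ^ L) (1 / 2 ^ L)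

/-- density of `X` in a lattice square -/
noncomputable def den (X : Set ℂ) (L : ℕ) (x y : ℤ) : ℝ := volume.real (X ∩ lsq L x y) * 4 ^ L

/-- closed neighbourhood (sup norm) of a lattice square -/
noncomputable def nbh (L : ℕ) (x y : ℤ) (W : ℝ) : Set ℂ :=
  Icc ((x : ℝ) / 2 ^ L - W) ((x + 1 : ℝ) / 2 ^ L + W) ×ℂ Icc ((y : ℝ) / 2 ^ L - W) ((y + 1 : ℝ) / 2 ^ L + W)

/-- points with at least `K` squares of density `≥ 1 - 2 κ` within `W` -/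
def HH (D : ℤ → ℤ → ℝ) (L : ℕ) (κ W : ℝ) (K : ℕ) : Set ℂ :=
  {z | ∃ S : Finset (ℤ × ℤ), S.card = K ∧ ∀ s ∈ S, 1 - 2 * κ ≤ D s.1 s.2 ∧ z ∈ nbh L s.1 s.2 W}

/-- points within `W` of a square of density `≥ 1 - 4 κ` -/
def UU (D : ℤ → ℤ → ℝ) (L : ℕ) (κ W : ℝ) : Set ℂ :=
  {z | ∃ x y : ℤ, 1 - 4 * κ ≤ D x y ∧ z ∈ nbh L x y W}

/-- ROT. A dense rotated cell contains a dense lattice square. `σ = 1 / 2^L`, `R = mv g '' sq p a`. If `w` lies in the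
inner cell `rc (p.re + 2σ) (a - 4σ) (p.im + 2σ) (a - 4σ)` then the ball of radius `2σ` around `mv g w` is in `R`, so the
lattice square containing `mv g w` is in `R`. If all (finitely many, disjoint) lattice squares inside `R` had density
`≤ 1 - 2κ` then `occ X g (sq p a) = |X ∩ R| ≤ (1 - 2κ) a^2 + (a^2 - (a - 4σ)^2) ≤ (1 - 2κ) a^2 + 8 σ a ≤ (1 - κ) a^2`. -/
def ROT_stmt : Prop := ∀ X : Set ℂ, MeasurableSet X → volume X ≠ ⊤ → ∀ (g : ℝ × ℂ) (p : ℂ)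
  (a κ : ℝ) (L : ℕ), 0 < a → 0 < κ → κ ≤ 1 / 2 → 8 / 2 ^ L ≤ κ * a →
  (1 - κ) * a ^ 2 < occ X g (sq p a) →
  ∃ x y : ℤ, lsq L x y ⊆ mv g '' sq p a ∧ 1 - 2 * κ < den X L x y

/-- DNS. At least `2K - (K - 1) ≥ K` nodes of `T` are not bad; ROT gives for each a dense lattice square inside
`mv g '' sq n a`; different nodes have disjoint cells (`2 a ≤ a' ≤ ‖n - n'‖`), so the lattice squares are different;
a point `w` of the square has `‖mv g z - w‖ ≤ W₀ + √2 a ≤ W`, so `mv g z` lies in `nbh`. Choose exactly `K` of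
them. -/
def DNS_stmt : Prop := ∀ X : Set ℂ, MeasurableSet X → volume X ≠ ⊤ → ∀ (g : ℝ × ℂ)
  (N T : Finset ℂ) (a a' κ W₀ W : ℝ) (L K : ℕ) (z : ℂ), 0 < a → 2 * a ≤ a' → 0 < κ → κ ≤ 1 / 2 →
  8 / 2 ^ L ≤ κ * a → (∀ n ∈ N, ∀ n' ∈ N, n ≠ n' → a' ≤ ‖n - n'‖) → nb X g N a (1 - κ) < K →
  T ⊆ N → 2 * K ≤ T.card → (∀ n ∈ T, ‖n - z‖ ≤ W₀) → W₀ + 2 * a ≤ W →
  mv g z ∈ HH (den X L) L κ W K

/-- the inequalities between the parameters of one scale -/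
def Good (κ η a : ℝ) (K L : ℕ) (W : ℝ) : Prop :=
  0 < κ ∧ κ ≤ 1 / 8 ∧ 0 < η ∧ η ≤ 1 ∧ 0 < a ∧ a ≤ η / 1000 ∧ 8 / 2 ^ L ≤ κ * a ∧ 1 ≤ K ∧
    64 / κ * (4 * Real.log (1 / a) + 5 * Real.log (1 / κ) + 40) ≤ K ∧ 8 * K * (24 * a / η) ≤ W

/-- PLC. **Placement.** For every `j ∈ J` take `a' = 24 a / η` and the nodes `N j` of NOD (`7 K a' ≤ W ≤ R`); the
cardinality `m ≤ 1/a' + 1 ≤ 2/a' = η/(12 a) ≤ 1/a` gives `KF κ a m ≤ K` and cost `6 m a ≤ 12 a/a' = η/2 ≤ η`; points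
of the curve have norm `≤ 1`. LMA, then DNS (`W₀ = 7 K a'`, `W₀ + 2 a ≤ 8 K a' ≤ W`). Finally shift the angle into
`[0, 2π]` by a multiple of `2π` (`mv` does not change). -/
def PLC_stmt : Prop := ∀ X : Set ℂ, IsOpen X → CovX X → volume X ≤ 1 → ∀ (F : ℝ → ℂ) (ℓ R : ℝ),
  LipschitzWith 1 F → F 0 = 0 → 0 ≤ ℓ → ℓ ≤ 1 →
  (∀ z ∈ F '' Icc 0 ℓ, ∃ y ∈ F '' Icc 0 ℓ, R ≤ ‖y - z‖) →
  ∀ (J : Finset ℕ) (κ η a W : ℕ → ℝ) (K L : ℕ → ℕ),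
  (∀ j ∈ J, Good (κ j) (η j) (a j) (K j) (L j) (W j) ∧ W j ≤ R) → ℓ + ∑ j ∈ J, η j ≤ 1 →
  ∃ g : ℝ × ℂ, 0 ≤ g.1 ∧ g.1 ≤ 2 * Real.pi ∧
    ∀ z ∈ F '' Icc 0 ℓ, ∀ j ∈ J, mv g z ∈ HH (den X (L j)) (L j) (κ j) (W j) (K j)

/-! Density trees, energy -/

/-- density tree -/
structure Tree (D : ℕ → ℤ → ℤ → ℝ) : Prop where
  nonneg : ∀ L x y, 0 ≤ D L x y
  le_one : ∀ L x y, D L x y ≤ 1
  avg : ∀ L x y, 4 * D L x y = D (L + 1) (2 * x) (2 * y) + D (L + 1) (2 * x + 1) (2 * y) +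
    D (L + 1) (2 * x) (2 * y + 1) + D (L + 1) (2 * x + 1) (2 * y + 1)

/-- total mass -/
noncomputable def mass (D : ℕ → ℤ → ℤ → ℝ) (L : ℕ) : ENNReal :=
  ∑' s : ℤ × ℤ, ENNReal.ofReal (D L s.1 s.2 / 4 ^ L)

/-- energy -/
noncomputable def en (D : ℕ → ℤ → ℤ → ℝ) (L : ℕ) : ENNReal :=
  ∑' s : ℤ × ℤ, ENNReal.ofReal (D L s.1 s.2 ^ 2 / 4 ^ L)

/-- variation between the levels `L` and `L + r` (`s.1 / 2 ^ r` is integer division with rounding down) -/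
noncomputable def va (D : ℕ → ℤ → ℤ → ℝ) (L r : ℕ) : ENNReal :=
  ∑' s : ℤ × ℤ, ENNReal.ofReal ((D (L + r) s.1 s.2 - D L (s.1 / 2 ^ r) (s.2 / 2 ^ r)) ^ 2 / 4 ^ (L + r))

/-- DTR. The densities of a measurable set form a density tree: a lattice square is the disjoint union of its four
children; `0 ≤ den ≤ 1` because the square has area `1 / 4^L`. -/
def DTR_stmt : Prop := ∀ X : Set ℂ, MeasurableSet X → Tree (den X)

/-- DMS. `mass (den X) L = volume X` : the lattice squares of level `L` partition the plane. -/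
def DMS_stmt : Prop := ∀ X : Set ℂ, MeasurableSet X → ∀ L : ℕ, mass (den X) L = volume X

/-- AVR. Sum over the descendants, induction over `r` (the children of the descendant `(2^r x + i, 2^r y + j)` are
`(2^(r+1) x + 2 i + i', ...)`; `Finset.sum_range_succ` pairs, or split the sum over `range (2^(r+1))` by parity). -/
def AVR_stmt : Prop := ∀ (D : ℕ → ℤ → ℤ → ℝ), Tree D → ∀ (L r : ℕ) (x y : ℤ),
  ∑ i ∈ Finset.range (2 ^ r), ∑ j ∈ Finset.range (2 ^ r), D (L + r) (2 ^ r * x + i) (2 ^ r * y + j) =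
    4 ^ r * D L x y

/-- RXS. Reindexing `ℤ × ℤ` by parent and position: `s = (2^r x + i, 2^r y + j)`, `x = s.1 / 2^r`, `i = s.1 % 2^r`
(an equivalence with `(ℤ × ℤ) × (Fin (2^r) × Fin (2^r))`, then `ENNReal.tsum_prod`, `tsum_fintype`). -/
def RXS_stmt : Prop := ∀ (f : ℤ → ℤ → ENNReal) (r : ℕ),
  ∑' s : ℤ × ℤ, f s.1 s.2 =
    ∑' s : ℤ × ℤ, ∑ i ∈ Finset.range (2 ^ r), ∑ j ∈ Finset.range (2 ^ r),
      f (2 ^ r * s.1 + i) (2 ^ r * s.2 + j)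

/-- MSC. The mass does not depend on the level: RXS and AVR with `r = L` from level `0`. -/
def MSC_stmt : Prop := ∀ (D : ℕ → ℤ → ℤ → ℝ), Tree D → ∀ L : ℕ, mass D L = mass D 0

/-- ENM. `en ≤ mass` (as `D^2 ≤ D`), hence `en D L ≤ mass D 0` by MSC. -/
def ENM_stmt : Prop := ∀ (D : ℕ → ℤ → ℤ → ℝ), Tree D → ∀ L : ℕ, en D L ≤ mass D 0

/-- PYT. Pythagoras. RXS; for a parent with density `D₀` and children densities `d_s` (`4^r` of them):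
`∑ (d_s - D₀)^2 + 4^r D₀^2 = ∑ d_s^2` because `∑ d_s = 4^r D₀` (AVR); divide by `4^(L+r)`. -/
def PYT_stmt : Prop := ∀ (D : ℕ → ℤ → ℤ → ℝ), Tree D → ∀ L r : ℕ, va D L r + en D L = en D (L + r)

/-- UAR. Area of `UU`: countable union of `nbh` (area `(1/2^L + 2W)^2 = (1 + 2 W 2^L)^2 / 4^L`) over squares with
`D ≥ 1 - 4κ`; each of them has `1 / 4^L ≤ (D / 4^L) / (1 - 4κ)`. -/
def UAR_stmt : Prop := ∀ (D : ℤ → ℤ → ℝ) (L : ℕ) (κ W : ℝ), (∀ x y, 0 ≤ D x y) → 0 < κ →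
  κ ≤ 1 / 8 → 0 ≤ W →
  volume (UU D L κ W) ≤ ENNReal.ofReal ((1 + 2 * W * 2 ^ L) ^ 2 / (1 - 4 * κ)) *
    ∑' s : ℤ × ℤ, ENNReal.ofReal (D s.1 s.2 / 4 ^ L)

/-- HAR. Area of `HH \ UU`. Let `G` be the set of the fine squares `s` with `2κ ≤ |D (L+r) s - D L (parent)|`. If
`z ∈ HH \ UU`, each of its `K` squares `s` has `D ≥ 1 - 2κ`, and its parent `t` satisfies `z ∈ nbh L t W` (the parent
contains the fine square), so `D L t < 1 - 4κ` and `s ∈ G`. Hence `K ≤ ∑'_{s ∈ G} 1_{nbh s} (z)`, and by Markov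
(`mul_meas_ge_le_lintegral`) `K * volume ≤ ∑'_{s ∈ G} (1/2^(L+r) + 2W)^2`, while
`card G * 4κ^2 / 4^(L+r) ≤ va D L r`. -/
def HAR_stmt : Prop := ∀ (D : ℕ → ℤ → ℤ → ℝ), Tree D → ∀ (L r K : ℕ) (κ W : ℝ), 0 < κ →
  κ ≤ 1 / 8 → 0 ≤ W → 1 ≤ K →
  volume (HH (D (L + r)) (L + r) κ W K \ UU (D L) L κ W) ≤
    ENNReal.ofReal ((1 + 2 * W * 2 ^ (L + r)) ^ 2 / (4 * κ ^ 2 * K)) * va D L r

/-- HCL. `HH` is closed: a convergent sequence in `HH` stays in a bounded region, which meets `nbh s` for finitely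
many `s` only, so infinitely many terms have the same `S`; `nbh` is closed. (Or: locally finite union of
closed sets.) -/
def HCL_stmt : Prop := ∀ (D : ℤ → ℤ → ℝ) (L : ℕ) (κ W : ℝ) (K : ℕ), IsClosed (HH D L κ W K)

/-- HRM. Harmonic pigeonhole. If `C (b+c) e b > ε` for all `b₀ ≤ b < b₁` then `1 ≥ ∑ e b > (ε/C) ∑ 1/(b+c)`, impossible
for large `b₁` (`Real.tendsto_sum_range_one_div_nat_succ_atTop`). -/
def HRM_stmt : Prop := ∀ (C ε : ℝ) (c b₀ : ℕ), 0 < C → 0 < ε → ∃ b₁ : ℕ, ∀ e : ℕ → ℝ, (∀ b, 0 ≤ e b) →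
  ∑ b ∈ Finset.range b₁, e b ≤ 1 → ∃ b : ℕ, b₀ ≤ b ∧ b < b₁ ∧ C * (b + c) * e b ≤ ε

/-- BLK. A pair of levels in a block: the intervals `[2^b + i r, 2^b + (i+1) r]`, `i < n = 2^b / r` (natural division,
`n ≥ 2^b / (2 r)`), telescope: the sum of `E (L + r) - E L` is at most `E (2^(b+1)) - E (2^b)`. -/
def BLK_stmt : Prop := ∀ (E : ℕ → ℝ) (b r : ℕ), Monotone E → 1 ≤ r → r ≤ 2 ^ b →
  ∃ L : ℕ, 2 ^ b ≤ L ∧ L + r ≤ 2 ^ (b + 1) ∧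
    (E (L + r) - E L) * 2 ^ b ≤ 2 * r * (E (2 ^ (b + 1)) - E (2 ^ b))

/-- SCL. **Choice of the scale, uniform version.**
Put `2^u ≥ 8/κ`, `a = 2^u / 2^(L+r)`, `W = 192 K a / η = (192 K 2^u / η) / 2^(L+r)`, so `8 / 2^(L+r) ≤ κ a`.
Block `b`: levels `L` in `[2^b, 2^(b+1)]`, `r = b + c`, `K = K_b = C 2^b` with a natural number `C = C(κ)` such that
`64/κ (4 log (1/a) + 5 log (1/κ) + 40) ≤ K_b` for `L + r ≤ 2^(b+1)` (`log (1/a) ≤ (L+r) log 2`).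
`W 2^L = (192 K_b 2^u/η) / 2^r ≤ τ` if `2^c ≥ 192 C 2^u / (η τ)`; `a ≤ η/1000` for large `b`.
`(1 + 2 W 2^(L+r))^2 / (4 κ^2 K) ≤ C' K_b` with `C' = (3 * 192 * 2^u/η)^2 / (4κ^2)`.
The `n_b = ⌊2^b / (b+c)⌋ ≥ 2^b / (2 (b+c))` pairs `(L, L + r)`, `L = 2^b + i (b+c)`, are disjoint, so some pair has
`E (L+r) - E L ≤ e_b / n_b`, `e_b = E (2^(b+1)) - E (2^b)`; then the last quantity is
`≤ C' C 2^b * 2 (b+c) e_b / 2^b = C'' (b+c) e_b`. If this were `> ε` for all `b₀ ≤ b < b₁` then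
`∑ ε / (C'' (b+c)) < ∑ e_b ≤ 1`, impossible for `b₁` large (HRM, BLK), `b₁` depending only on `κ, η, τ, ε, L₀`. `Lmax = 2^(b₁+1)`. -/
def SCL_stmt : Prop := ∀ (κ η τ ε : ℝ) (L₀ : ℕ), 0 < κ → κ ≤ 1 / 8 → 0 < η → η ≤ 1 → 0 < τ → 0 < ε →
  ∃ Lmax : ℕ, ∀ E : ℕ → ℝ, Monotone E → (∀ L, 0 ≤ E L ∧ E L ≤ 1) →
  ∃ (L r K : ℕ) (a W : ℝ), L₀ ≤ L ∧ L + r ≤ Lmax ∧ Good κ η a K (L + r) W ∧ 0 ≤ W ∧
    W * 2 ^ L ≤ τ ∧ (1 + 2 * W * 2 ^ (L + r)) ^ 2 / (4 * κ ^ 2 * K) * (E (L + r) - E L) ≤ ε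

end Pool.Agent.MW
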