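import Mathlib
import Pool.Agent.helper60.MW.Spec

set_option autoImplicit false

/-!
Moser's worm problem, block B: limits along an ultrafilter, the minimal set, uniform thickness
-/

namespace Pool.Agent.MW

open MeasureTheory Set Pool.Agent.helper17.Worm

/-- a nonprincipal ultrafilter on the natural numbers -/
noncomputable def ul : Ultrafilter ℕ := Filter.hyperfilter ℕ

/-- limit along `ul` -/
noncomputable def ulim (h : ℕ → ℝ) : ℝ := Filter.limUnder (ul : Filter ℕ) h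

/-- limit densities seen from the integer points `c n` -/
noncomputable def Dl (X : ℕ → Set ℂ) (c : ℕ → ℤ × ℤ) (L : ℕ) (x y : ℤ) : ℝ :=
  ulim (fun n => den (X n) L (x + 2 ^ L * (c n).1) (y + 2 ^ L * (c n).2))

/-- sequences of integer points with eventually constant difference -/
def Rel (c c' : ℕ → ℤ × ℤ) : Prop := ∃ v : ℤ × ℤ, ∀ᶠ n in (ul : Filter ℕ), c' n = c n + v

/-- ULM. Bounded sequences converge along `ul`: `isCompact_Icc`, `Ultrafilter` in a compact set converges; then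
`tendsto_nhds_limUnder`. -/
def ULM_stmt : Prop := ∀ h : ℕ → ℝ, (∀ n, 0 ≤ h n ∧ h n ≤ 1) →
  Filter.Tendsto h (ul : Filter ℕ) (nhds (ulim h))

/-- LTD. Convergence of the densities (`0 ≤ den ≤ 1` by DTR). -/
def LTD_stmt : Prop := ∀ (X : ℕ → Set ℂ), (∀ n, MeasurableSet (X n)) → ∀ (c : ℕ → ℤ × ℤ) (L : ℕ)
  (x y : ℤ), Filter.Tendsto (fun n => den (X n) L (x + 2 ^ L * (c n).1) (y + 2 ^ L * (c n).2))
    (ul : Filter ℕ) (nhds (Dl X c L x y))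

/-- LTR. The limit densities form a density tree: pass to the limit (LTD) in the relations of DTR, note
`2 * (x + 2^L * c) = 2 * x + 2^(L+1) * c`. -/
def LTR_stmt : Prop := ∀ (X : ℕ → Set ℂ), (∀ n, MeasurableSet (X n)) → ∀ (c : ℕ → ℤ × ℤ),
  Tree (Dl X c)

/-- SEP. If `c, c'` are not related then their distance tends to infinity along `ul`: otherwise (ultrafilter
dichotomy) `c' n - c n` lies eventually in a finite set, hence is eventually constant. -/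
def SEP_stmt : Prop := ∀ c c' : ℕ → ℤ × ℤ, ¬ Rel c c' → ∀ R : ℤ, ∀ᶠ n in (ul : Filter ℕ),
  R < |(c n).1 - (c' n).1| ∨ R < |(c n).2 - (c' n).2|

/-- FIN. An eventually bounded sequence of integer points is eventually constant along `ul`. -/
def FIN_stmt : Prop := ∀ (d : ℕ → ℤ × ℤ) (R : ℤ), (∀ᶠ n in (ul : Filter ℕ), |(d n).1| ≤ R ∧ |(d n).2| ≤ R) →
  ∃ v : ℤ × ℤ, ∀ᶠ n in (ul : Filter ℕ), d n = v

/-- CLS. Representatives: quotient by `Rel` (an equivalence relation) and `Quotient.out`. -/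
def CLS_stmt : Prop := ∃ (ι : Type) (c : ι → ℕ → ℤ × ℤ), (∀ i i', i ≠ i' → ¬ Rel (c i) (c i')) ∧
  ∀ d, ∃ i, Rel (c i) d

/-- MS1. Finite part of the mass inequality. For `ul`-almost all `n` the unit squares number `(x, y) + c i n`
(`i ∈ F`, `-R ≤ x, y < R`) are pairwise different (SEP with `2R`), so the sum of `den (X n) 0` over them is at most
`volume (X n)`; pass to the limit. -/
def MS1_stmt : Prop := ∀ (X : ℕ → Set ℂ) (V : ℕ → ℝ) (M : ℝ), (∀ n, MeasurableSet (X n)) →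
  (∀ n, 0 ≤ V n) → (∀ n, volume (X n) ≤ ENNReal.ofReal (V n)) →
  Filter.Tendsto V (ul : Filter ℕ) (nhds M) →
  ∀ (ι : Type) (c : ι → ℕ → ℤ × ℤ), (∀ i i', i ≠ i' → ¬ Rel (c i) (c i')) → ∀ (F : Finset ι) (R : ℕ),
  ∑ i ∈ F, ∑ x ∈ Finset.Ico (-(R : ℤ)) R, ∑ y ∈ Finset.Ico (-(R : ℤ)) R, Dl X (c i) 0 x y ≤ M

/-- MSS. Total mass, from MS1: the double sum is the supremum of its finite parts. -/
def MSS_stmt : Prop := ∀ (X : ℕ → Set ℂ) (V : ℕ → ℝ) (M : ℝ), (∀ n, MeasurableSet (X n)) →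
  (∀ n, 0 ≤ V n) → (∀ n, volume (X n) ≤ ENNReal.ofReal (V n)) →
  Filter.Tendsto V (ul : Filter ℕ) (nhds M) →
  ∀ (ι : Type) (c : ι → ℕ → ℤ × ℤ), (∀ i i', i ≠ i' → ¬ Rel (c i) (c i')) →
  ∑' i, mass (Dl X (c i)) 0 ≤ ENNReal.ofReal M

/-- TOT. Total energy: `E L = (∑' i, en (D i) L).toReal`; PYT and ENM. -/
def TOT_stmt : Prop := ∀ (ι : Type) (D : ι → ℕ → ℤ → ℤ → ℝ), (∀ i, Tree (D i)) →
  ∑' i, mass (D i) 0 ≤ 1 → ∃ E : ℕ → ℝ, Monotone E ∧ (∀ L, 0 ≤ E L ∧ E L ≤ 1) ∧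
    ∀ L r, ∑' i, va (D i) L r ≤ ENNReal.ofReal (E (L + r) - E L)

/-- the sequence `1/8, 1/16, ...` -/
noncomputable def kap (j : ℕ) : ℝ := 1 / 2 ^ (j + 3)

/-- ONE. Area of `HH` in one tree: `HH ⊆ UU ∪ (HH \ UU)`, UAR and HAR. -/
def ONE_stmt : Prop := ∀ (D : ℕ → ℤ → ℤ → ℝ), Tree D → ∀ (L r K : ℕ) (κ W : ℝ), 0 < κ →
  κ ≤ 1 / 8 → 0 ≤ W → 1 ≤ K →
  volume (HH (D (L + r)) (L + r) κ W K) ≤
    ENNReal.ofReal ((1 + 2 * W * 2 ^ L) ^ 2 / (1 - 4 * κ)) * mass D 0 +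
    ENNReal.ofReal ((1 + 2 * W * 2 ^ (L + r)) ^ 2 / (4 * κ ^ 2 * K)) * va D L r

/-- SEL. Selection of the scales: for every `j` use SCL with `κ = η = τ = ε = kap j`, `L₀ = j` and the energy of TOT
(`L j` here is `L + r` of SCL); `W ≤ W 2^L ≤ 1`, more precisely `W ≤ τ / 2^j`; sum ONE over `i`. -/
def SEL_stmt : Prop := ∀ (ι : Type) (D : ι → ℕ → ℤ → ℤ → ℝ) (M : ℝ), (∀ i, Tree (D i)) → 0 ≤ M →
  M ≤ 1 → ∑' i, mass (D i) 0 ≤ ENNReal.ofReal M →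
  ∃ (a W : ℕ → ℝ) (K L : ℕ → ℕ), ∀ j, Good (kap j) (kap j) (a j) (K j) (L j) (W j) ∧ 0 ≤ W j ∧
    W j ≤ 1 / 2 ^ j ∧ ∑' i, volume (HH (D i (L j)) (L j) (kap j) (W j) (K j)) ≤
      ENNReal.ofReal ((1 + 2 * kap j) ^ 2 / (1 - 4 * kap j) * M + kap j)

/-- the minimal set -/
def ZZ {ι : Type} (D : ι → ℕ → ℤ → ℤ → ℝ) (W : ℕ → ℝ) (K L : ℕ → ℕ) : Set ℂ :=
  ⋃ m : ℕ, ⋃ i ∈ {i | mass (D i) 0 ≠ 0}, ⋂ j ∈ {j : ℕ | m ≤ j}, HH (D i (L j)) (L j) (kap j) (W j) (K j)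

/-- NZM. If `HH` is not empty (`K ≥ 1`) then the tree has positive mass: some `D L x y ≥ 1 - 2κ > 0`, MSC. -/
def NZM_stmt : Prop := ∀ (D : ℕ → ℤ → ℤ → ℝ), Tree D → ∀ (L K : ℕ) (κ W : ℝ) (z : ℂ), 1 ≤ K →
  κ ≤ 1 / 8 → z ∈ HH (D L) L κ W K → mass D 0 ≠ 0

/-- ZME. Area of the minimal set. The set of `i` with positive mass is countable
(`Summable.countable_support_ennreal`). The union over `m` is increasing; for fixed `m` and every `j ≥ m` the area is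
at most the sum over `i` of the area of `HH` at `j`, which is `≤ ofReal (c_j M + kap j)`; let `j → ∞` (`c_j → 1`,
`kap j → 0`). -/
def ZME_stmt : Prop := ∀ (ι : Type) (D : ι → ℕ → ℤ → ℤ → ℝ) (M : ℝ) (W : ℕ → ℝ) (K L : ℕ → ℕ),
  ∑' i, mass (D i) 0 ≠ ⊤ → 0 ≤ M →
  (∀ j, ∑' i, volume (HH (D i (L j)) (L j) (kap j) (W j) (K j)) ≤
      ENNReal.ofReal ((1 + 2 * kap j) ^ 2 / (1 - 4 * kap j) * M + kap j)) →
  volume (ZZ D W K L) ≤ ENNReal.ofReal M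

/-- ZSC. `ZZ` is sigma compact: countably many `i`, countably many `m`, HCL, and closed subsets of `ℂ` are sigma
compact. -/
def ZSC_stmt : Prop := ∀ (ι : Type) (D : ι → ℕ → ℤ → ℤ → ℝ) (W : ℕ → ℝ) (K L : ℕ → ℕ),
  ∑' i, mass (D i) 0 ≠ ⊤ → IsSigmaCompact (ZZ D W K L)

/-- TRS. Translation by an integer point: shift the finite set `S` by `- 2^L c`. -/
def TRS_stmt : Prop := ∀ (D : ℤ → ℤ → ℝ) (L K : ℕ) (κ W : ℝ) (g : ℝ × ℂ) (z : ℂ) (c : ℤ × ℤ),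
  mv g z ∈ HH D L κ W K →
  mv (g.1, g.2 - ((c.1 : ℂ) + (c.2 : ℂ) * Complex.I)) z ∈
    HH (fun x y => D (x + 2 ^ L * c.1) (y + 2 ^ L * c.2)) L κ W K

/-- LIH. `HH` passes to the limit. For `ul`-almost all `n`, `z n` is in a bounded region, so the finite sets `S n`
are subsets of one finite set; along the ultrafilter `S n = S` for almost all `n`. Limits of
`1 - 2κ ≤ D n s` and of `z n ∈ nbh s` (closed). -/
def LIH_stmt : Prop := ∀ (D : ℕ → ℤ → ℤ → ℝ) (D' : ℤ → ℤ → ℝ) (L K : ℕ) (κ W : ℝ) (z : ℕ → ℂ)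
  (z' : ℂ), (∀ x y, Filter.Tendsto (fun n => D n x y) (ul : Filter ℕ) (nhds (D' x y))) →
  Filter.Tendsto z (ul : Filter ℕ) (nhds z') → (∀ᶠ n in (ul : Filter ℕ), z n ∈ HH (D n) L κ W K) →
  z' ∈ HH D' L κ W K

/-- CPT. Bounded sequences of motions converge along `ul`. -/
def CPT_stmt : Prop := ∀ (g : ℕ → ℝ × ℂ) (R : ℝ),
  (∀ᶠ n in (ul : Filter ℕ), 0 ≤ (g n).1 ∧ (g n).1 ≤ 2 * Real.pi ∧ ‖(g n).2‖ ≤ R) →
  ∃ g' : ℝ × ℂ, Filter.Tendsto g (ul : Filter ℕ) (nhds g')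

/-- PLN. Placement in `X n` for the first `n` scales. EXT for `f` gives `F`, `ℓ = (1 + q) / 2`, `R = (1 - q) / 4`;
choose `m` with `1 / 2^m ≤ (1 - q) / 4` (then `∑_{j ≥ m} kap j ≤ 1 / 2^(m+2) ≤ (1 - q) / 2`, `W j ≤ R`); PLC with
`J = Finset.Ico m (m + n)`. -/
def PLN_stmt : Prop := ∀ (X : ℕ → Set ℂ), (∀ n, IsOpen (X n)) → (∀ n, CovX (X n)) →
  (∀ n, volume (X n) ≤ 1) → ∀ (a W : ℕ → ℝ) (K L : ℕ → ℕ),
  (∀ j, Good (kap j) (kap j) (a j) (K j) (L j) (W j) ∧ 0 ≤ W j ∧ W j ≤ 1 / 2 ^ j) →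
  ∀ (q : ℝ) (f : ℝ → ℂ), 0 < q → q < 1 →
  (∀ x ∈ Icc (0 : ℝ) 1, ∀ y ∈ Icc (0 : ℝ) 1, ‖f x - f y‖ ≤ q * |x - y|) →
  ∃ (m : ℕ) (Γ : Set ℂ), 0 ∈ Γ ∧ (∀ x ∈ Icc (0 : ℝ) 1, f x - f 0 ∈ Γ) ∧
    ∀ n : ℕ, ∃ g : ℝ × ℂ, 0 ≤ g.1 ∧ g.1 ≤ 2 * Real.pi ∧
      ∀ z ∈ Γ, ∀ j ∈ Finset.Ico m (m + n), mv g z ∈ HH (den (X n) (L j)) (L j) (kap j) (W j) (K j)

/-- ZCV. **Covering property of the limit set.** With PLN take `g n`; `c n = (⌊(g n).2.re⌋, ⌊(g n).2.im⌋)`; some `i`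
has `Rel (c i) c`; `g' n = ((g n).1, (g n).2 - c i n)` is eventually bounded along `ul` and converges to `g'`
(CPT); for `z ∈ Γ` and `j ≥ m` (eventually `j < m + n`, as `ul` is nonprincipal) TRS, LTD, LIH give
`mv g' z ∈ HH (Dl X (c i) (L j)) ..`. NZM: the mass of `i` is positive (use `z = 0 ∈ Γ`, `j = m`). Finally
`mv g' (f t - f 0) = mv (g'.1, g'.2 - exp (I g'.1) * f 0) (f t)`. -/
def ZCV_stmt : Prop := ∀ (X : ℕ → Set ℂ), (∀ n, IsOpen (X n)) → (∀ n, CovX (X n)) →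
  (∀ n, volume (X n) ≤ 1) → ∀ (a W : ℕ → ℝ) (K L : ℕ → ℕ),
  (∀ j, Good (kap j) (kap j) (a j) (K j) (L j) (W j) ∧ 0 ≤ W j ∧ W j ≤ 1 / 2 ^ j) →
  ∀ (ι : Type) (c : ι → ℕ → ℤ × ℤ), (∀ d, ∃ i, Rel (c i) d) →
  ∀ (q : ℝ) (f : ℝ → ℂ), 0 < q → q < 1 →
  (∀ x ∈ Icc (0 : ℝ) 1, ∀ y ∈ Icc (0 : ℝ) 1, ‖f x - f y‖ ≤ q * |x - y|) →
  ∃ g : ℝ × ℂ, ∀ t ∈ Icc (0 : ℝ) 1, mv g (f t) ∈ ZZ (fun i => Dl X (c i)) W K L

/-! The problem -/

/-- A worm: the image of `[0, 1]` under a `1`-Lipschitz map into the Euclidean plane `ℂ`. -/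
def IsWorm (w : Set ℂ) : Prop :=
  ∃ f : ℝ → ℂ, LipschitzOnWith 1 f (Icc 0 1) ∧ w = f '' Icc 0 1

/-- A worm cover: a Lebesgue measurable set `X` in the plane such that every worm `w` satisfies
`w ⊆ g (X)` for some orientation-preserving rigid motion `g (z) = a * z + b` with `‖a‖ = 1`. -/
def IsWormCover (X : Set ℂ) : Prop :=
  NullMeasurableSet X volume ∧
    ∀ w : Set ℂ, IsWorm w → ∃ a b : ℂ, ‖a‖ = 1 ∧ w ⊆ (fun z => a * z + b) '' X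

/-- The infimum of the areas of worm covers. -/
noncomputable def mu : ENNReal := sInf {A : ENNReal | ∃ X : Set ℂ, IsWormCover X ∧ volume X = A}

/-- WCX. A superset of a worm cover satisfies `CovX`: invert the motion `z ↦ a z + b`, `a = exp (I θ)`. -/
def WCX_stmt : Prop := ∀ X U : Set ℂ, IsWormCover X → X ⊆ U → CovX U

/-- MUX. A minimising sequence of open sets. `mu ≤ π/4 < 1` (the closed disc of radius `1/2`: translate `f (1/2)` to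
the centre), `M = mu.toReal`; take worm covers with area `< mu + 1/(n+5)`, `Set.exists_isOpen_lt_of_lt`, WCX. -/
def MUX_stmt : Prop := ∃ (X : ℕ → Set ℂ) (V : ℕ → ℝ) (M : ℝ), 0 ≤ M ∧ M ≤ 1 ∧ ENNReal.ofReal M = mu ∧
  (∀ n, IsOpen (X n)) ∧ (∀ n, CovX (X n)) ∧ (∀ n, volume (X n) ≤ 1) ∧ (∀ n, 0 ≤ V n) ∧
  (∀ n, volume (X n) ≤ ENNReal.ofReal (V n)) ∧ Filter.Tendsto V Filter.atTop (nhds M)

/-- MUL. Lower bound: for `lam > 1` the set `lam Z` is a worm cover (shrink the worm by `1/lam`), so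
`mu ≤ lam^2 * volume Z`; let `lam → 1` (if the area of `Z` is infinite there is nothing to prove). -/
def MUL_stmt : Prop := ∀ Z : Set ℂ, MeasurableSet Z →
  (∀ (q : ℝ) (f : ℝ → ℂ), 0 < q → q < 1 →
    (∀ x ∈ Icc (0 : ℝ) 1, ∀ y ∈ Icc (0 : ℝ) 1, ‖f x - f y‖ ≤ q * |x - y|) →
    ∃ g : ℝ × ℂ, ∀ t ∈ Icc (0 : ℝ) 1, mv g (f t) ∈ Z) → mu ≤ volume Z

/-! Uniform thickness -/

/-- UUX. `UU \ X` is covered by the sets `nbh q \ X`, `q` a square of density `≥ 1 - 4κ`; each has area at most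
`((1 + 2 W 2^L)^2 - (1 - 4κ)) / 4^L`, and the number of these squares is at most `volume X * 4^L / (1 - 4κ)`. -/
def UUX_stmt : Prop := ∀ (X : Set ℂ), MeasurableSet X → ∀ (L : ℕ) (κ W : ℝ), 0 < κ → κ ≤ 1 / 8 →
  0 ≤ W → volume (UU (den X L) L κ W \ X) ≤
    ENNReal.ofReal (((1 + 2 * W * 2 ^ L) ^ 2 - (1 - 4 * κ)) / (1 - 4 * κ)) * volume X

/-- UTO. **Uniform thickness for open sets.** `κ = τ = ε / 100`, `η = ε / 2` and `ε / 100` in SCL; `δ = 1 / 2^Lmax`.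
For `X`: energy of TOT with `ι = Unit` (DTR, DMS), scale of SCL; `Y = HH (den X L') L' κ (2 W) K`, `L' = L + r`, closed by
HCL; `Y \ X ⊆ (UU \ X) ∪ (HH \ UU)` with `2 W`: `(1 + 4τ)^2 - 1 + 4κ` over `1 - 4κ` is `≤ ε / 3`, and
`(1 + 4 W 2^L')^2 ≤ 4 (1 + 2 W 2^L')^2`, so the second is `≤ 4 ε / 100`. Covering: EXT with `c = 1 - ε`
(`ℓ = 1 - ε/2`, `R = ε / 4`), PLC with `J = {0}`; `W ≤ τ ≤ R`; `δ ≤ 1/2^L' ≤ a ≤ W`, so `closedBall (mv g z) δ` lies in `HH`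
with `2 W`. -/
def UTO_stmt : Prop := ∀ ε : ℝ, 0 < ε → ε < 1 → ∃ δ > 0, ∀ X : Set ℂ, IsOpen X → CovX X →
  volume X ≤ 1 → ∃ Y : Set ℂ, IsClosed Y ∧ volume (Y \ X) ≤ ENNReal.ofReal ε ∧
    ∀ f : ℝ → ℂ, (∀ x ∈ Icc (0 : ℝ) 1, ∀ y ∈ Icc (0 : ℝ) 1, ‖f x - f y‖ ≤ (1 - ε) * |x - y|) →
      ∃ g : ℝ × ℂ, ∀ t ∈ Icc (0 : ℝ) 1, Metric.closedBall (mv g (f t)) δ ⊆ Y

/-- UTM. The same for worm covers: UTO with `ε / 2` for an open `U ⊇ X` with `volume U ≤ volume X + ε / 2` and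
`volume U ≤ 1` (possible as `volume X < 1`; WCX gives `CovX U`); the curves with Lipschitz constant `1 - ε` have
Lipschitz constant `1 - ε / 2`. `X` is null measurable, `volume (Y \ X) ≤ volume (Y \ U) + volume (U \ X)`. -/
def UTM_stmt : Prop := ∀ ε : ℝ, 0 < ε → ε < 1 → ∃ δ > 0, ∀ X : Set ℂ, IsWormCover X →
  volume X < 1 → ∃ Y : Set ℂ, IsClosed Y ∧ volume (Y \ X) ≤ ENNReal.ofReal ε ∧
    ∀ f : ℝ → ℂ, (∀ x ∈ Icc (0 : ℝ) 1, ∀ y ∈ Icc (0 : ℝ) 1, ‖f x - f y‖ ≤ (1 - ε) * |x - y|) →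
      ∃ g : ℝ × ℂ, ∀ t ∈ Icc (0 : ℝ) 1, Metric.closedBall (mv g (f t)) δ ⊆ Y

end Pool.Agent.MW
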