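import Mathlib
import Pool.Agent.helper60.MW.SpecB

set_option autoImplicit false

/-!
Moser's worm problem, block C: explicit scale, and the reduction of `mu` to explicit finite integer problems.
CAREFUL: the numbers `LL k` are huge; never let `norm_num`, `decide`, `simp` evaluate them for a numeral `k`
(keep `k` a variable, generalise `2 ^ (2 ^ (10 * k + 100))` if needed).
-/

namespace Pool.Agent.MW

open MeasureTheory Set Pool.Agent.helper17.Worm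

/-- explicit level -/
def LL (k : ℕ) : ℕ := 2 ^ (2 ^ (2 ^ (10 * k + 100)))

/-- HRX. Explicit harmonic pigeonhole. With `c = 5 k + 46`, `b₀ = k + 8`, `b₁ = 2 ^ (2 ^ (10 k + 100))`: otherwise
`∑_{b₀ ≤ b < b₁} 1/(b + c) < 2^(9k+81)`, but this sum is at least `log (b₁ + c) - log (b₀ + c)`
(`log ((x+1)/x) ≤ 1/x`), which is `≥ 2^(10k+100) log 2 - (6 k + 54) ≥ 2^(9k+81)`. -/
def HRX_stmt : Prop := ∀ (k : ℕ) (e : ℕ → ℝ), (∀ b, 0 ≤ e b) →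
  ∑ b ∈ Finset.range (2 ^ (2 ^ (10 * k + 100))), e b ≤ 1 →
  ∃ b : ℕ, k + 8 ≤ b ∧ b < 2 ^ (2 ^ (10 * k + 100)) ∧
    2 ^ (9 * k + 81) * ((b : ℝ) + (5 * k + 46)) * e b ≤ 1

/-- SCX. **Explicit choice of the scale.** `κ = τ = ε = 1/2^(k+7)`, `η = 1/2^(k+1)`. Take `b` of HRX for
`e b = E (2^(b+1)) - E (2^b)`, `r = b + 5 k + 46 ≤ 2^b`, `L` of BLK, `K = 2^(2k+20+b)`, `a = 2^(k+10) / 2^(L+r)`,
`W = 8 K (24 a / η)`. Then `8 / 2^(L+r) = κ a`; `a ≤ η/1000` as `L + r ≥ 2k + 21`;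
`64/κ (4 log (1/a) + 5 log (1/κ) + 40) ≤ 2^(k+13) (5.6 * 2^b + 3.5 k + 65) ≤ K` (`log (1/a) ≤ 2^(b+1) log 2`,
`2^b ≥ 256 * 2^k`); `W 2^(L+r) = 192 * 2^(4k+31+b)`, `W 2^L = 192 / 2^(k+15) ≤ 1/2^(k+7)`;
`(1 + 2 W 2^(L+r))^2 / (4 κ^2 K) ≤ (576 * 2^(4k+31+b))^2 / 2^(b+8) ≤ 2^(8k+73+b)` and
`E (L+r) - E L ≤ 2 r e_b / 2^b`, so the last quantity is `≤ 2^(8k+74) r e_b ≤ 1/2^(k+7)`. `L + r ≤ 2^(b+1) ≤ LL k`. -/
def SCX_stmt : Prop := ∀ (k : ℕ) (E : ℕ → ℝ), Monotone E → (∀ L, 0 ≤ E L ∧ E L ≤ 1) →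
  ∃ (L r K : ℕ) (a W : ℝ), L + r ≤ LL k ∧ Good (1 / 2 ^ (k + 7)) (1 / 2 ^ (k + 1)) a K (L + r) W ∧ 0 ≤ W ∧
    W * 2 ^ L ≤ 1 / 2 ^ (k + 7) ∧
    (1 + 2 * W * 2 ^ (L + r)) ^ 2 / (4 * (1 / 2 ^ (k + 7)) ^ 2 * K) * (E (L + r) - E L) ≤ 1 / 2 ^ (k + 7)

/-- UTX. **Explicit uniform thickness**, the proof of UTO with `ε = 1/2^k`, `κ = τ = ε/128`, `η = ε/2` and SCX instead
of SCL (`(8τ + 16τ^2 + 4κ)/(1 - 4κ) + 4/128 ε ≤ ε`). -/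
def UTX_stmt : Prop := ∀ k : ℕ, 1 ≤ k → ∀ X : Set ℂ, IsOpen X → CovX X →
  volume X ≤ 1 → ∃ Y : Set ℂ, IsClosed Y ∧ volume (Y \ X) ≤ ENNReal.ofReal (1 / 2 ^ k) ∧
    ∀ f : ℝ → ℂ, (∀ x ∈ Icc (0 : ℝ) 1, ∀ y ∈ Icc (0 : ℝ) 1, ‖f x - f y‖ ≤ (1 - 1 / 2 ^ k) * |x - y|) →
      ∃ g : ℝ × ℂ, ∀ t ∈ Icc (0 : ℝ) 1, Metric.closedBall (mv g (f t)) (1 / 2 ^ (LL k)) ⊆ Y

/-- SCY. Scaling: `Y' = lam Y`, `lam = (1 + 2/n) / (1 - x) ≥ 1`; for `f` with constant `1 + 2/n` apply the hypothesis to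
`f / lam`; `closedBall (lam w) δ ⊆ lam closedBall w δ`. -/
def SCY_stmt : Prop := ∀ (x δ : ℝ) (n : ℕ) (Y : Set ℂ), 0 ≤ x → x < 1 → 0 < δ → 1 ≤ n → IsClosed Y →
  (∀ f : ℝ → ℂ, (∀ s ∈ Icc (0 : ℝ) 1, ∀ t ∈ Icc (0 : ℝ) 1, ‖f s - f t‖ ≤ (1 - x) * |s - t|) →
      ∃ g : ℝ × ℂ, ∀ t ∈ Icc (0 : ℝ) 1, Metric.closedBall (mv g (f t)) δ ⊆ Y) →
  ∃ Y' : Set ℂ, IsClosed Y' ∧ volume Y' = ENNReal.ofReal (((1 + 2 / n) / (1 - x)) ^ 2) * volume Y ∧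
    ∀ f : ℝ → ℂ, (∀ s ∈ Icc (0 : ℝ) 1, ∀ t ∈ Icc (0 : ℝ) 1, ‖f s - f t‖ ≤ (1 + 2 / n) * |s - t|) →
      ∃ g : ℝ × ℂ, ∀ t ∈ Icc (0 : ℝ) 1, Metric.closedBall (mv g (f t)) δ ⊆ Y'

/-! The finite problem -/

/-- lattice path with `n` steps starting at `0`, steps of length at most `n + 2` -/
def PathP (n : ℕ) (P : Fin (n + 1) → ℤ × ℤ) : Prop :=
  P 0 = (0, 0) ∧ ∀ i : Fin n, ((P i.succ).1 - (P i.castSucc).1) ^ 2 +
    ((P i.succ).2 - (P i.castSucc).2) ^ 2 ≤ ((n : ℤ) + 2) ^ 2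

/-- first coordinate (times `n^4`) of the image of `p / n^2` under `z ↦ (α / n^2) z + γ / n^2` -/
def ps1 (n : ℕ) (α γ p : ℤ × ℤ) : ℤ := α.1 * p.1 - α.2 * p.2 + (n : ℤ) ^ 2 * γ.1

/-- second coordinate -/
def ps2 (n : ℕ) (α γ p : ℤ × ℤ) : ℤ := α.1 * p.2 + α.2 * p.1 + (n : ℤ) ^ 2 * γ.2

/-- the square number `s` of side `1/m` is close to the `i`-th point (all integers) -/
def Near (m n : ℕ) (α γ p s : ℤ × ℤ) : Prop :=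
  |s.1 * (n : ℤ) ^ 4 - m * ps1 n α γ p| ≤ 2 * (n : ℤ) ^ 4 ∧ |s.2 * (n : ℤ) ^ 4 - m * ps2 n α γ p| ≤ 2 * (n : ℤ) ^ 4

/-- `α / n^2` is nearly a rotation -/
def Rot (n : ℕ) (α : ℤ × ℤ) : Prop :=
  ((n : ℤ) ^ 2 - 1) ^ 2 ≤ α.1 ^ 2 + α.2 ^ 2 ∧ α.1 ^ 2 + α.2 ^ 2 ≤ ((n : ℤ) ^ 2 + 1) ^ 2

/-- the finite set `S` of lattice squares of side `1/m` accommodates all lattice paths -/
def FinCov (m n : ℕ) (S : Finset (ℤ × ℤ)) : Prop :=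
  ∀ P : Fin (n + 1) → ℤ × ℤ, PathP n P → ∃ α γ : ℤ × ℤ, Rot n α ∧
    ∀ i : Fin (n + 1), ∀ s : ℤ × ℤ, Near m n α γ (P i) s → s ∈ S

/-- closed square number `s` of side `1/m` -/
noncomputable def csq (m : ℕ) (s : ℤ × ℤ) : Set ℂ :=
  Icc ((s.1 : ℝ) / m) ((s.1 + 1 : ℝ) / m) ×ℂ Icc ((s.2 : ℝ) / m) ((s.2 + 1 : ℝ) / m)

/-- least number of squares in the box `{0, ..., B}^2` which accommodate all lattice paths -/
noncomputable def opt (m n B : ℕ) : ℕ :=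
  sInf {c : ℕ | ∃ S : Finset (ℤ × ℤ), (∀ s ∈ S, 0 ≤ s.1 ∧ s.1 ≤ B ∧ 0 ≤ s.2 ∧ s.2 ≤ B) ∧ FinCov m n S ∧ S.card = c}

/-- LFC. A solution of the finite problem gives a worm cover. Let `f` be `1`-Lipschitz on `[0, 1]`; subtract `f 0`. Put
`P i` = nearest integer point to `n^2 f (i/n)`: `PathP n P` (step `≤ n + √2`). Take `α, γ`, `a = α/|α|`
(`||α| - n^2| ≤ 1`, so `|a - α/n^2| ≤ 1/n^2`), `g z = a z + γ/n^2`, `z_i = α P_i / n^4 + γ/n^2`. For `t ∈ [i/n, (i+1)/n]`: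
`|g (f t) - z_i| ≤ 1/n + 1/n^2 + (1/n^2)(1 + 1/n^2) ≤ 1/m` (`n ≥ 8 m`); the square containing `w = g (f t)`,
`s = (⌊m w.re⌋, ⌊m w.im⌋)`, is `Near`, hence in `S`. So `f` lies in `g⁻¹` of the union. -/
def LFC_stmt : Prop := ∀ (m n : ℕ) (S : Finset (ℤ × ℤ)), 1 ≤ m → 8 * m ≤ n → FinCov m n S →
  IsWormCover (⋃ s ∈ S, csq m s)

/-- LFS. A thick set gives a solution of the finite problem. `S` = the squares contained in `Y` (finitely many,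
`card / m^2 ≤ volume Y`, use half open squares for disjointness). For a lattice path `P` take the polygon `f` with
`f (i/n) = P i / n^2` (piecewise linear interpolation), Lipschitz constant `≤ (n+2)/n = 1 + 2/n`; `g z = a z + b` of the
hypothesis; `α` = nearest integer point to `n^2 a`, `γ` nearest to `n^2 b`: `Rot`, and
`|z_i - g (f (i/n))| ≤ (1/n^2)(1 + 2/n) + 1/n^2 ≤ 3/n^2`. A square `Near` is within `3/m` in the sup norm of `z_i`,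
so within `4.3/m + 3/n^2 ≤ 6/m ≤ δ` of `g (f (i/n))`, so it is contained in `Y`. -/
def LFS_stmt : Prop := ∀ (m n : ℕ) (δ : ℝ) (Y : Set ℂ), 1 ≤ m → 8 * m ≤ n → 6 / m ≤ δ → IsClosed Y →
  volume Y ≠ ⊤ →
  (∀ f : ℝ → ℂ, (∀ s ∈ Icc (0 : ℝ) 1, ∀ t ∈ Icc (0 : ℝ) 1, ‖f s - f t‖ ≤ (1 + 2 / n) * |s - t|) →
      ∃ g : ℝ × ℂ, ∀ t ∈ Icc (0 : ℝ) 1, Metric.closedBall (mv g (f t)) δ ⊆ Y) →
  ∃ S : Finset (ℤ × ℤ), FinCov m n S ∧ ENNReal.ofReal ((S.card : ℝ) / m ^ 2) ≤ volume Y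

/-- window number `j` with offset `u`, step `M`, overlap `w` -/
def Win (M w : ℕ) (u j s : ℤ × ℤ) : Prop :=
  (j.1 * M + u.1 ≤ s.1 ∧ s.1 < j.1 * M + u.1 + M + w) ∧ (j.2 * M + u.2 ≤ s.2 ∧ s.2 < j.2 * M + u.2 + M + w)

open Classical in
/-- OFF. Averaging over the `M^2` offsets `u ∈ {0..M-1}^2`: `∑_u ∑_j card (S ∩ window) = card S * (M + w)^2`, because for
each coordinate `(u, j) ↦ j M + u` is a bijection onto `ℤ` and `s - M - w < v ≤ s` has `M + w` integer solutions; so some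
`u` has `M^2 ∑_j card ≤ card S (M+w)^2`; `J` = the finitely many windows meeting `S`. -/
def OFF_stmt : Prop := ∀ (S : Finset (ℤ × ℤ)) (M w : ℕ), 1 ≤ M → ∃ (u : ℤ × ℤ) (J : Finset (ℤ × ℤ)),
  (∀ j s, s ∈ S → Win M w u j s → j ∈ J) ∧ (∀ j ∈ J, ∃ s ∈ S, Win M w u j s) ∧
  M ^ 2 * ∑ j ∈ J, (S.filter (fun s => Win M w u j s)).card ≤ S.card * (M + w) ^ 2

/-- CNW. The squares used by one lattice path lie in one window: `|P i| ≤ n (n + 2)`, so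
`|z_i - z_0| ≤ (1 + 1/n^2)(1 + 2/n) ≤ 3/2`; all `Near` squares have `|s.1 - m z_0.re| ≤ 3/2 m + 2`; with
`x₀ = ⌊m z_0.re⌋ - 8 m` they lie in `[x₀, x₀ + 16 m)`, and `j.1 = ⌊(x₀ - u.1) / M⌋` works. Same for the second
coordinate. -/
def CNW_stmt : Prop := ∀ (m n M : ℕ) (P : Fin (n + 1) → ℤ × ℤ) (α γ u : ℤ × ℤ), 1 ≤ m → 8 * m ≤ n → 1 ≤ M →
  PathP n P → Rot n α → ∃ j : ℤ × ℤ, ∀ (i : Fin (n + 1)) (s : ℤ × ℤ), Near m n α γ (P i) s →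
    Win M (16 * m) u j s

/-- SHF. Shifting by a lattice vector `v`: with `γ' = γ + (n^2/m) v` one has
`m * ps1 n α γ' p = m * ps1 n α γ p + n^4 v.1` (and for `ps2`). -/
def SHF_stmt : Prop := ∀ (m n : ℕ) (α γ v : ℤ × ℤ), 1 ≤ m → m ∣ n ^ 2 → ∃ γ' : ℤ × ℤ,
  ∀ p s : ℤ × ℤ, Near m n α γ' p s ↔ Near m n α γ p (s.1 - v.1, s.2 - v.2)

/-- BXW. **Bounding box.** `M = 16 m 2^q`, `w = 16 m`: OFF gives `u, J`; enumerate `J` as `j_0, ..., j_{N-1}`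
(`N ≤ ∑ card ≤ 4 card S`), translate the piece `S ∩ window j_r` by `v_r = (r (M + w), 0) - (j_r M + u)` and let `S'` be
the union: it lies in `[0, N (M+w)) × [0, M+w)`, its cardinality is at most the sum of the pieces. A path placed in `S`
with `α, γ` uses only squares of one window (CNW; there is a used square, so the window is in `J`), shift (SHF). -/
def BXW_stmt : Prop := ∀ (m n q : ℕ) (S : Finset (ℤ × ℤ)), 1 ≤ m → 8 * m ≤ n → m ∣ n ^ 2 → FinCov m n S →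
  ∃ S' : Finset (ℤ × ℤ), FinCov m n S' ∧
    (∀ s ∈ S', 0 ≤ s.1 ∧ s.1 ≤ 4 * S.card * (16 * m * 2 ^ q + 16 * m) ∧ 0 ≤ s.2 ∧
      s.2 ≤ 4 * S.card * (16 * m * 2 ^ q + 16 * m)) ∧
    (16 * m * 2 ^ q) ^ 2 * S'.card ≤ S.card * (16 * m * 2 ^ q + 16 * m) ^ 2

/-- number of squares per unit length in the finite problem number `k` -/
def Mk (k : ℕ) : ℕ := 2 ^ (LL (k + 6) + 3)

/-- the optimal value of the finite problem number `k` (a rational number) -/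
noncomputable def optk (k : ℕ) : ℚ := (opt (Mk k) (8 * Mk k) (Mk k ^ 4) : ℚ) / (Mk k : ℚ) ^ 2

/-- FNL. **Moser's constant is the limit of explicit finite problems.** `x = 1/2^(k+6) ≤ 1/64`, `m = Mk k`, `n = 8 m`.
Upper bound: MUX gives an open `X`, `CovX`, `volume X ≤ mu + x`, `≤ 1`; UTX (with `k + 6`), SCY: `lam^2 ≤ 1 + 5 x`, so
`volume Y' ≤ (1 + 5x)(mu + 2x) ≤ mu + 7 x` (`mu ≤ 1`); LFS with `δ = 1/2^(LL (k+6)) ≥ 6/m`: `card S / m^2 ≤ mu + 7x ≤ 2`;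
BXW with `q = k + 6`: `card S' ≤ (1 + x)^2 card S`, `card S'/m^2 ≤ mu + 10 x ≤ mu + 1/2^k`; box:
`4 card S (16 m 2^q + 16 m) ≤ 8 m^2 * 16 m (2^(k+6) + 1) ≤ m^4`. So the set of `c` in `opt` is nonempty and its minimum is
small. Lower bound: the minimum is attained (`Nat.sInf_mem`) by some `S`, LFC: the union of the closed squares is a
worm cover of area `≤ card S / m^2`. -/
def FNL_stmt : Prop := ∀ k : ℕ, mu ≤ ENNReal.ofReal (optk k : ℝ) ∧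
  ENNReal.ofReal (optk k : ℝ) ≤ mu + ENNReal.ofReal (1 / 2 ^ k)

end Pool.Agent.MW
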