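import Mathlib
import Pool.Agent.helper60.MW.Spec

set_option autoImplicit false

namespace Pool.Agent.MW

open MeasureTheory Set Pool.Agent.helper17.Worm

theorem BAL : BAL_stmt := by
  classical
  intro ι _ X hX k q B p a b s t d S g g' hd hdb hq hab ha hp hB hF hg1 hg2
  have hb : 0 < b := by linarith
  have hq1 : (1 : ℝ) ≤ q := by exact_mod_cast hq
  have hba : b ≤ a := by rw [hab]; nlinarith
  have ha0 : 0 < a := by linarith
  have near0 : ∀ (i : ι) (z : ℂ), z ∈ sq (p i) a → ∀ h h' : ℝ × ℂ, |h.1 - h'.1| ≤ d / 8 →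
      ‖h.2 - h'.2‖ ≤ d / 2 → ‖mv h z - mv h' z‖ ≤ d := by
    intro i z hz h h' h1 h2
    unfold sq at hz
    rw [mem_rc] at hz
    obtain ⟨⟨h3, h4⟩, ⟨h5, h6⟩⟩ := hz
    have h7 : ‖z - p i‖ ≤ 1 := by
      refine (Complex.norm_le_abs_re_add_abs_im _).trans ?_
      rw [Complex.sub_re, Complex.sub_im, abs_of_nonneg (by linarith), abs_of_nonneg (by linarith)]
      linarith
    have h8 : ‖z‖ ≤ 4 := by
      have : z = (z - p i) + p i := by ring
      rw [this]
      refine (norm_add_le _ _).trans ?_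
      linarith [hp i]
    refine (mv_near h h' z).trans ?_
    have : |h.1 - h'.1| * ‖z‖ ≤ d / 8 * 4 := mul_le_mul h1 h8 (norm_nonneg _) (by linarith)
    linarith
  have hg1' : |g'.1 - g.1| ≤ d / 8 := by rw [abs_sub_comm]; exact hg1
  have hg2' : ‖g'.2 - g.2‖ ≤ d / 2 := by rw [norm_sub_rev]; exact hg2
  refine ⟨hB.trans ?_, ?_⟩
  · unfold nbad
    refine Finset.card_le_card ?_
    intro i hi
    rw [Finset.mem_filter] at hi ⊢
    refine ⟨hi.1, ?_⟩
    have h1 : occ X g' (sq (p i) a) ≤ occ X g (sq (p i) a) + 2 * d * (a + a) := by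
      unfold sq
      refine occ_near hX g' g hd.le (by linarith) (by linarith) ?_
      intro z hz
      exact near0 i z hz g' g hg1' hg2'
    have h2 : (s + 4 * d / a) * a ^ 2 = s * a ^ 2 + 2 * d * (a + a) := by
      field_simp
      ring
    rw [h2]
    linarith [hi.2]
  · intro e
    have h0 := hF e
    have hre : (sub (p e.1) b (S e).1 (S e).2).re = (p e.1).re + ((S e).1 : ℕ) * b := by simp [sub]
    have him : (sub (p e.1) b (S e).1 (S e).2).im = (p e.1).im + ((S e).2 : ℕ) * b := by simp [sub]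
    have hx : (((S e).1 : ℕ) : ℝ) + 1 ≤ q := by exact_mod_cast (S e).1.2
    have hy : (((S e).2 : ℕ) : ℝ) + 1 ≤ q := by exact_mod_cast (S e).2.2
    have hsub : sq (sub (p e.1) b (S e).1 (S e).2) b ⊆ sq (p e.1) a := by
      intro z hz
      unfold sq at hz ⊢
      rw [mem_rc] at hz ⊢
      rw [hre, him] at hz
      obtain ⟨⟨h3, h4⟩, ⟨h5, h6⟩⟩ := hz
      have e1 : (0 : ℝ) ≤ ((S e).1 : ℕ) * b := by positivity
      have e2 : (0 : ℝ) ≤ ((S e).2 : ℕ) * b := by positivity
      have e3 : (((S e).1 : ℕ) : ℝ) * b + b ≤ a := by rw [hab]; nlinarith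
      have e4 : (((S e).2 : ℕ) : ℝ) * b + b ≤ a := by rw [hab]; nlinarith
      exact ⟨⟨by linarith, by linarith⟩, ⟨by linarith, by linarith⟩⟩
    have h1 : occ X g (sq (sub (p e.1) b (S e).1 (S e).2) b) ≤
        occ X g' (sq (sub (p e.1) b (S e).1 (S e).2) b) + 2 * d * (b + b) := by
      unfold sq
      refine occ_near hX g g' hd.le (by linarith) (by linarith) ?_
      intro z hz
      exact near0 e.1 z (hsub hz) g g' hg1 hg2
    have h2 : (t + 4 * d / b) * b ^ 2 = t * b ^ 2 + 2 * d * (b + b) := by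
      field_simp
      ring
    rw [h2] at h0
    linarith

end Pool.Agent.MW
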