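import Mathlib
import Pool.Agent.helper60.MW.Spec

set_option autoImplicit false

namespace Pool.Agent.MW

open MeasureTheory Set Pool.Agent.helper17.Worm

theorem CHO (hSUM : SUM_stmt) : CHO_stmt := by
  classical
  intro ι _ X hX hX1 k q B p a b s t α β v hk hq hB hb ha hs ht hst hαβ hv hlt
  by_contra hcon
  push Not at hcon
  have h1 := hSUM ι X hX hX1 k q B p a b s t α β hk hq hB hb ha hs ht hst hαβ
  have h2 : (Fintype.card (ι × Fin k → Fin q × Fin q) : ENNReal) * ENNReal.ofReal v ≤
      ∑ S : ι × Fin k → Fin q × Fin q, muG α β (Fail X p a b s t B S) := by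
    calc (Fintype.card (ι × Fin k → Fin q × Fin q) : ENNReal) * ENNReal.ofReal v
        = ∑ _S : ι × Fin k → Fin q × Fin q, ENNReal.ofReal v := by
          rw [Finset.sum_const, Finset.card_univ, nsmul_eq_mul]
      _ ≤ _ := Finset.sum_le_sum fun S _ => hcon S
  have hcard : Fintype.card (ι × Fin k → Fin q × Fin q) = q ^ (2 * (Fintype.card ι * k)) := by
    rw [Fintype.card_fun, Fintype.card_prod, Fintype.card_prod, Fintype.card_fin, Fintype.card_fin,
      ← pow_two, ← pow_mul]
  have hq0 : (0 : ℝ) < (q : ℝ) ^ (2 * (Fintype.card ι * k)) := by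
    have : (0 : ℝ) < q := by exact_mod_cast hq
    positivity
  have h3 : ENNReal.ofReal ((q : ℝ) ^ (2 * (Fintype.card ι * k)) * v) ≤
      ENNReal.ofReal ((q : ℝ) ^ (2 * (Fintype.card ι * k)) *
        ((β - α) * ((s / t) ^ (B * k - 1) * (1 / t) * Fintype.card ι))) := by
    refine le_trans (le_of_eq ?_) (le_trans h2 ?_)
    · rw [ENNReal.ofReal_mul hq0.le, hcard, ← ENNReal.ofReal_natCast]
      push_cast
      rfl
    · exact h1
  rw [ENNReal.ofReal_le_ofReal_iff'] at h3
  rcases h3 with h3 | h3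
  · have := le_of_mul_le_mul_left h3 hq0
    linarith
  · have : 0 < (q : ℝ) ^ (2 * (Fintype.card ι * k)) * v := mul_pos hq0 hv
    linarith

end Pool.Agent.MW
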