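import Mathlib
import Pool.Agent.helper17.MW.INS
import Pool.Agent.helper71.MW.INF
import Pool.Agent.helper35.MW.REG
import Pool.Agent.helper43.MW.SPL
import Pool.Agent.helper90.MW.CNT
import Pool.Agent.helper2.MW.MFL
import Pool.Agent.helper70.MW.SUM
import Pool.Agent.helper60.MW.CHO
import Pool.Agent.helper60.MW.BAL
import Pool.Agent.helper17.MW.MEA
import Pool.Agent.helper50.MW.NUM
import Pool.Agent.helper87.MW.STP
import Pool.Agent.helper13.MW.PAR
import Pool.Agent.helper24.MW.SEQ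
import Pool.Agent.helper42.MW.LV1
import Pool.Agent.helper10.MW.LVS
import Pool.Agent.helper41.MW.CHN
import Pool.Agent.helper17.MW.LMA
import Pool.Agent.helper3.MW.CIR
import Pool.Agent.helper5.MW.MAX
import Pool.Agent.helper5.MW.NOD
import Pool.Agent.helper41.MW.EXT
import Pool.Agent.helper54.MW.ROT
import Pool.Agent.helper89.MW.DNS
import Pool.Agent.helper18.MW.PLC
import Pool.Agent.helper31.MW.DTR
import Pool.Agent.helper78.MW.DMS
import Pool.Agent.helper80.MW.AVR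
import Pool.Agent.helper9.MW.RXS
import Pool.Agent.helper68.MW.MSC
import Pool.Agent.helper42.MW.ENM
import Pool.Agent.helper80.MW.PYT
import Pool.Agent.helper75.MW.UAR
import Pool.Agent.helper32.MW.HAR
import Pool.Agent.helper5.MW.HCL
import Pool.Agent.helper75.MW.HRM
import Pool.Agent.helper72.MW.BLK
import Pool.Agent.helper45.MW.SCL
import Pool.Agent.helper64.MW.ULM
import Pool.Agent.helper64.MW.LTD
import Pool.Agent.helper29.MW.LTR
import Pool.Agent.helper50.MW.FIN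
import Pool.Agent.helper50.MW.SEP
import Pool.Agent.helper50.MW.CLS
import Pool.Agent.helper20.MW.MS1
import Pool.Agent.helper50.MW.MSS
import Pool.Agent.helper80.MW.TOT
import Pool.Agent.helper72.MW.ONE
import Pool.Agent.helper8.MW.SEL
import Pool.Agent.helper50.MW.NZM
import Pool.Agent.helper64.MW.ZME
import Pool.Agent.helper39.MW.ZSC
import Pool.Agent.helper72.MW.TRS
import Pool.Agent.helper48.MW.LIH
import Pool.Agent.helper55.MW.CPT
import Pool.Agent.helper72.MW.PLN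
import Pool.Agent.helper40.MW.ZCV
import Pool.Agent.helper92.MW.WCX
import Pool.Agent.helper5.MW.MUX
import Pool.Agent.helper5.MW.MUL
import Pool.Agent.helper5.MW.UUX
import Pool.Agent.helper98.MW.UTO
import Pool.Agent.helper80.MW.UTM

set_option autoImplicit false

/-!
Assembly of the rows of blocks A and B (Moser worm problem).
-/

namespace Pool.Agent.MW

theorem a_INS : INS_stmt := INS
theorem a_INF : INF_stmt := INF a_INS
theorem a_REG : REG_stmt := REG
theorem a_SPL : SPL_stmt := SPL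
theorem a_CNT : CNT_stmt := CNT a_SPL
theorem a_MFL : MFL_stmt := MFL
theorem a_SUM : SUM_stmt := SUM a_CNT a_MFL
theorem a_CHO : CHO_stmt := CHO a_SUM
theorem a_BAL : BAL_stmt := BAL
theorem a_MEA : MEA_stmt := MEA
theorem a_NUM : NUM_stmt := NUM
theorem a_STP : STP_stmt := STP a_CHO a_BAL a_MEA a_NUM
theorem a_PAR : PAR_stmt := PAR
theorem a_SEQ : SEQ_stmt := SEQ
theorem a_LV1 : LV1_stmt := LV1 a_STP a_SEQ a_INF
theorem a_LVS : LVS_stmt := LVS a_STP a_SEQ a_INF
theorem a_CHN : CHN_stmt := CHN a_PAR a_SEQ a_LV1 a_LVS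
theorem a_LMA : LMA_stmt := LMA a_REG a_CHN
theorem a_CIR : CIR_stmt := CIR
theorem a_MAX : MAX_stmt := MAX
theorem a_NOD : NOD_stmt := NOD a_CIR a_MAX
theorem a_EXT : EXT_stmt := EXT
theorem a_ROT : ROT_stmt := ROT
theorem a_DNS : DNS_stmt := DNS a_ROT
theorem a_PLC : PLC_stmt := PLC a_LMA a_NOD a_DNS
theorem a_DTR : DTR_stmt := DTR
theorem a_DMS : DMS_stmt := DMS
theorem a_AVR : AVR_stmt := AVR
theorem a_RXS : RXS_stmt := RXS
theorem a_MSC : MSC_stmt := MSC a_AVR a_RXS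
theorem a_ENM : ENM_stmt := ENM a_MSC
theorem a_PYT : PYT_stmt := PYT a_AVR a_RXS
theorem a_UAR : UAR_stmt := UAR
theorem a_HAR : HAR_stmt := HAR
theorem a_HCL : HCL_stmt := HCL
theorem a_HRM : HRM_stmt := HRM
theorem a_BLK : BLK_stmt := BLK
theorem a_SCL : SCL_stmt := SCL a_HRM a_BLK
theorem a_ULM : ULM_stmt := ULM
theorem a_LTD : LTD_stmt := LTD a_ULM a_DTR
theorem a_LTR : LTR_stmt := LTR a_LTD a_DTR
theorem a_FIN : FIN_stmt := FIN
theorem a_SEP : SEP_stmt := SEP a_FIN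
theorem a_CLS : CLS_stmt := CLS
theorem a_MS1 : MS1_stmt := MS1 a_LTD a_SEP
theorem a_MSS : MSS_stmt := MSS a_MS1
theorem a_TOT : TOT_stmt := TOT a_PYT a_ENM
theorem a_ONE : ONE_stmt := ONE a_UAR a_HAR a_MSC
theorem a_SEL : SEL_stmt := SEL a_TOT a_SCL a_ONE
theorem a_NZM : NZM_stmt := NZM a_MSC
theorem a_ZME : ZME_stmt := ZME
theorem a_ZSC : ZSC_stmt := ZSC a_HCL
theorem a_TRS : TRS_stmt := TRS
theorem a_LIH : LIH_stmt := LIH
theorem a_CPT : CPT_stmt := CPT
theorem a_PLN : PLN_stmt := PLN a_EXT a_PLC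
theorem a_ZCV : ZCV_stmt := ZCV a_PLN a_CPT a_TRS a_LTD a_LTR a_LIH a_NZM a_FIN
theorem a_WCX : WCX_stmt := WCX
theorem a_MUX : MUX_stmt := MUX a_WCX
theorem a_MUL : MUL_stmt := MUL
theorem a_UUX : UUX_stmt := UUX
theorem a_UTO : UTO_stmt := UTO a_SCL a_TOT a_DTR a_DMS a_HCL a_UUX a_HAR a_EXT a_PLC
theorem a_UTM : UTM_stmt := UTM a_UTO a_WCX

end Pool.Agent.MW
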