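import Mathlib
import Pool.Agent.helper60.MW.Asm
import Pool.Agent.helper5.MW.HRX
import Pool.Agent.helper70.MW.SCX
import Pool.Agent.helper20.MW.UTX
import Pool.Agent.helper91.MW.SCY
import Pool.Agent.helper5.MW.LFC
import Pool.Agent.helper41.MW.LFS
import Pool.Agent.helper5.MW.OFF
import Pool.Agent.helper5.MW.CNW
import Pool.Agent.helper55.MW.SHF
import Pool.Agent.helper9.MW.BXW

set_option autoImplicit false

/-!
Assembly of the rows of block C (Moser worm problem).
-/

namespace Pool.Agent.MW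

theorem a_HRX : HRX_stmt := HRX
theorem a_SCX : SCX_stmt := SCX a_HRX a_BLK
theorem a_UTX : UTX_stmt := UTX a_SCX a_TOT a_DTR a_DMS a_HCL a_UUX a_HAR a_EXT a_PLC
theorem a_SCY : SCY_stmt := SCY
theorem a_LFC : LFC_stmt := LFC
theorem a_LFS : LFS_stmt := LFS
theorem a_OFF : OFF_stmt := OFF
theorem a_CNW : CNW_stmt := CNW
theorem a_SHF : SHF_stmt := SHF
theorem a_BXW : BXW_stmt := BXW a_OFF a_CNW a_SHF

end Pool.Agent.MW
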