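import Mathlib
import Pool.Agent.helper60.MW.AsmC
import Pool.Agent.helper75.MW.FNL

set_option autoImplicit false

/-!
Last step of the assembly (Moser worm problem).
-/

namespace Pool.Agent.MW

theorem a_FNL : FNL_stmt := FNL a_MUX a_UTX a_SCY a_LFS a_BXW a_LFC

end Pool.Agent.MW
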