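import Mathlib
import Pool.Agent.helper60.MW.SpecB

set_option autoImplicit false

/-!
Moser's worm problem: assembly of the attainment theorem.
-/

namespace Pool.Agent.MW

open MeasureTheory Set Pool.Agent.helper17.Worm

/-- A set which contains a congruent copy of every curve of length less than `1`. -/
def IsShortCover (Z : Set ℂ) : Prop :=
  NullMeasurableSet Z volume ∧
    ∀ (c : NNReal) (f : ℝ → ℂ), c < 1 → LipschitzOnWith c f (Icc 0 1) →
      ∃ a b : ℂ, ‖a‖ = 1 ∧ f '' Icc 0 1 ⊆ (fun z => a * z + b) '' Z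

lemma FN1_inv (g : ℝ × ℂ) (Z : Set ℂ) (f : ℝ → ℂ) (h : ∀ t ∈ Icc (0 : ℝ) 1, mv g (f t) ∈ Z) :
    ∃ a b : ℂ, ‖a‖ = 1 ∧ f '' Icc 0 1 ⊆ (fun z => a * z + b) '' Z := by
  refine ⟨Complex.exp (Complex.I * ((-g.1 : ℝ) : ℂ)),
    -(Complex.exp (Complex.I * ((-g.1 : ℝ) : ℂ)) * g.2), norm_rot _, ?_⟩
  rintro _ ⟨t, ht, rfl⟩
  refine ⟨mv g (f t), h t ht, ?_⟩
  have h1 : Complex.exp (Complex.I * ((-g.1 : ℝ) : ℂ)) * Complex.exp (Complex.I * g.1) = 1 := by
    rw [← Complex.exp_add]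
    have : Complex.I * ((-g.1 : ℝ) : ℂ) + Complex.I * (g.1 : ℂ) = 0 := by push_cast; ring
    rw [this, Complex.exp_zero]
  simp only [mv]
  calc Complex.exp (Complex.I * ((-g.1 : ℝ) : ℂ)) * (Complex.exp (Complex.I * g.1) * f t + g.2) +
      -(Complex.exp (Complex.I * ((-g.1 : ℝ) : ℂ)) * g.2)
      = (Complex.exp (Complex.I * ((-g.1 : ℝ) : ℂ)) * Complex.exp (Complex.I * g.1)) * f t := by ring
    _ = f t := by rw [h1, one_mul]

lemma FN1_fwd {a b : ℂ} (ha : ‖a‖ = 1) (Z : Set ℂ) (f : ℝ → ℂ)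
    (h : f '' Icc 0 1 ⊆ (fun z => a * z + b) '' Z) :
    ∃ g : ℝ × ℂ, ∀ t ∈ Icc (0 : ℝ) 1, mv g (f t) ∈ Z := by
  have ha0 : a ≠ 0 := by
    rintro rfl
    simp at ha
  have h1 : ‖a⁻¹‖ = 1 := by rw [norm_inv, ha, inv_one]
  have h2 : Complex.exp (Complex.I * (Complex.arg a⁻¹ : ℝ)) = a⁻¹ := by
    have := Complex.norm_mul_exp_arg_mul_I a⁻¹
    rw [h1] at this
    rw [mul_comm Complex.I]
    simpa using this
  refine ⟨(Complex.arg a⁻¹, -(a⁻¹ * b)), fun t ht => ?_⟩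
  obtain ⟨z, hz, hzt⟩ := h ⟨t, ht, rfl⟩
  have : mv (Complex.arg a⁻¹, -(a⁻¹ * b)) (f t) = z := by
    simp only [mv]
    rw [h2, ← hzt]
    field_simp
    ring
  rw [this]
  exact hz

theorem FN1 (hMUX : MUX_stmt) (hCLS : CLS_stmt) (hMSS : MSS_stmt) (hSEL : SEL_stmt)
    (hLTR : LTR_stmt) (hZME : ZME_stmt) (hZSC : ZSC_stmt) (hZCV : ZCV_stmt) (hMUL : MUL_stmt) :
    (∃ Z : Set ℂ, IsSigmaCompact Z ∧ IsShortCover Z ∧ volume Z = mu) ∧
      ∀ Z : Set ℂ, IsShortCover Z → mu ≤ volume Z := by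
  have hlow : ∀ Z : Set ℂ, IsShortCover Z → mu ≤ volume Z := by
    intro Z hZ
    rw [← measure_toMeasurable Z]
    refine hMUL _ (measurableSet_toMeasurable _ _) ?_
    intro q f hq0 hq1 hf
    obtain ⟨a, b, ha, hab⟩ := hZ.2 ⟨q, hq0.le⟩ f (by
      rw [← NNReal.coe_lt_coe]; exact hq1) (by
      refine LipschitzOnWith.of_dist_le_mul fun x hx y hy => ?_
      rw [dist_eq_norm, Real.dist_eq]
      exact hf x hx y hy)
    exact FN1_fwd ha _ f (hab.trans (image_mono (subset_toMeasurable volume Z)))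
  refine ⟨?_, hlow⟩
  obtain ⟨X, V, M, hM0, hM1, hMmu, hXo, hXc, hX1, hV0, hXV, hVM⟩ := hMUX
  obtain ⟨ι, c, hc1, hc2⟩ := hCLS
  have hXm : ∀ n, MeasurableSet (X n) := fun n => (hXo n).measurableSet
  have hVul : Filter.Tendsto V (ul : Filter ℕ) (nhds M) :=
    hVM.mono_left (Nat.hyperfilter_le_atTop)
  have hmass : ∑' i, mass (Dl X (c i)) 0 ≤ ENNReal.ofReal M :=
    hMSS X V M hXm hV0 hXV hVul ι c hc1
  have htree : ∀ i, Tree (Dl X (c i)) := fun i => hLTR X hXm (c i)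
  obtain ⟨a, W, K, L, hsel⟩ := hSEL ι (fun i => Dl X (c i)) M htree hM0 hM1 hmass
  have hfin : ∑' i, mass (Dl X (c i)) 0 ≠ ⊤ := ne_top_of_le_ne_top ENNReal.ofReal_ne_top hmass
  have hle : volume (ZZ (fun i => Dl X (c i)) W K L) ≤ ENNReal.ofReal M :=
    hZME ι (fun i => Dl X (c i)) M W K L hfin hM0 (fun j => (hsel j).2.2.2)
  have hsc : IsSigmaCompact (ZZ (fun i => Dl X (c i)) W K L) :=
    hZSC ι (fun i => Dl X (c i)) W K L hfin
  have hshort : IsShortCover (ZZ (fun i => Dl X (c i)) W K L) := by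
    refine ⟨?_, ?_⟩
    · obtain ⟨T, hT, hTe⟩ := hsc
      rw [← hTe]
      exact (MeasurableSet.iUnion fun n => (hT n).isClosed.measurableSet).nullMeasurableSet
    · intro c' f hc' hf
      have hc'' : (c' : ℝ) < 1 := by exact_mod_cast hc'
      obtain ⟨g, hg⟩ := hZCV X hXo hXc hX1 a W K L
        (fun j => ⟨(hsel j).1, (hsel j).2.1, (hsel j).2.2.1⟩) ι c hc2 (max c' (1 / 2)) f
        (lt_max_of_lt_right (by norm_num)) (max_lt hc'' (by norm_num)) (by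
          intro x hx y hy
          have := hf.dist_le_mul x hx y hy
          rw [dist_eq_norm, Real.dist_eq] at this
          refine this.trans ?_
          gcongr
          exact le_max_left _ _)
      exact FN1_inv g _ f hg
  exact ⟨_, hsc, hshort, le_antisymm (hle.trans_eq hMmu) (hlow _ hshort)⟩

end Pool.Agent.MW
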