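import Mathlib
import Pool.Agent.helper60.MW.SpecC

set_option autoImplicit false

/-!
Moser's worm problem: uniform thickness for worm covers, with explicit constants.
-/

namespace Pool.Agent.MW

open MeasureTheory Set Pool.Agent.helper17.Worm

theorem FN2 (hUTX : UTX_stmt) (hWCX : WCX_stmt) :
    ∀ k : ℕ, ∀ X : Set ℂ, IsWormCover X → volume X < 1 →
      ∃ Y : Set ℂ, IsClosed Y ∧ volume (Y \ X) ≤ ENNReal.ofReal (1 / 2 ^ k) ∧
        ∀ f : ℝ → ℂ, (∀ s ∈ Icc (0 : ℝ) 1, ∀ t ∈ Icc (0 : ℝ) 1, ‖f s - f t‖ ≤ (1 - 1 / 2 ^ k) * |s - t|) →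
          ∃ a b : ℂ, ‖a‖ = 1 ∧
            ∀ t ∈ Icc (0 : ℝ) 1, Metric.closedBall (a * f t + b) (1 / 2 ^ (LL (k + 1))) ⊆ Y := by
  intro k X hX hX1
  have hpos : (0 : ℝ) < 1 / 2 ^ (k + 1) := by positivity
  have hlt : volume X < min 1 (volume X + ENNReal.ofReal (1 / 2 ^ (k + 1))) := by
    refine lt_min hX1 ?_
    refine ENNReal.lt_add_right (ne_top_of_lt hX1) ?_
    rw [Ne, ENNReal.ofReal_eq_zero, not_le]
    exact hpos
  obtain ⟨U, hXU, hU, hUlt⟩ := X.exists_isOpen_lt_of_lt _ hlt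
  have hU1 : volume U ≤ 1 := (hUlt.trans_le (min_le_left _ _)).le
  have hU2 : volume U ≤ volume X + ENNReal.ofReal (1 / 2 ^ (k + 1)) :=
    (hUlt.trans_le (min_le_right _ _)).le
  obtain ⟨Y, hYc, hYU, hY⟩ := hUTX (k + 1) (by omega) U hU (hWCX X U hX hXU) hU1
  have hUX : volume (U \ X) ≤ ENNReal.ofReal (1 / 2 ^ (k + 1)) := by
    rw [measure_sdiff hXU hX.1 (ne_top_of_lt hX1)]
    exact tsub_le_iff_left.mpr hU2
  refine ⟨Y, hYc, ?_, ?_⟩
  · have hsub : Y \ X ⊆ (Y \ U) ∪ (U \ X) := by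
      intro z hz
      by_cases h : z ∈ U
      · exact Or.inr ⟨h, hz.2⟩
      · exact Or.inl ⟨hz.1, h⟩
    calc volume (Y \ X) ≤ volume ((Y \ U) ∪ (U \ X)) := measure_mono hsub
      _ ≤ volume (Y \ U) + volume (U \ X) := measure_union_le _ _
      _ ≤ ENNReal.ofReal (1 / 2 ^ (k + 1)) + ENNReal.ofReal (1 / 2 ^ (k + 1)) := add_le_add hYU hUX
      _ = ENNReal.ofReal (1 / 2 ^ k) := by
        rw [← ENNReal.ofReal_add hpos.le hpos.le]
        congr 1
        rw [pow_succ]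
        field_simp
        norm_num
  · intro f hf
    have h1 : (1 : ℝ) / 2 ^ (k + 1) ≤ 1 / 2 ^ k := by
      rw [pow_succ]
      refine one_div_le_one_div_of_le (by positivity) ?_
      have : (0 : ℝ) < 2 ^ k := by positivity
      linarith
    obtain ⟨g, hg⟩ := hY f (by
      intro s hs t ht
      refine (hf s hs t ht).trans ?_
      gcongr)
    exact ⟨Complex.exp (Complex.I * g.1), g.2, norm_rot _, hg⟩

end Pool.Agent.MW
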