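import Mathlib
import Pool.Agent.helper60.MW.Spec

set_option autoImplicit false

namespace Pool.Agent.MW

open MeasureTheory Set Pool.Agent.helper17.Worm

theorem SPL : SPL_stmt := by
  intro X hX hfin g p b q hb
  unfold sq
  rw [occ_rc_width hX hfin g hb q]
  refine Finset.sum_congr rfl fun i _ => ?_
  rw [occ_rc_height hX hfin g hb q]
  refine Finset.sum_congr rfl fun j _ => ?_
  have h1 : (sub p b i j).re = p.re + i * b := by
    simp [sub]
  have h2 : (sub p b i j).im = p.im + j * b := by
    simp [sub]
  rw [h1, h2]

end Pool.Agent.MW
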